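/-
Definition of gendo-symmetric algebras.
-/
import Pool.Agent.W450.RigDefs

namespace W881.GS

open W450.Rig

universe u

/-- A finite-dimensional algebra is symmetric if it has a non-degenerate symmetrizing form. -/
def IsSymmetricAlgebra (K S : Type u) [Field K] [Ring S] [Algebra K S] : Prop :=
  ∃ l : S →ₗ[K] K, (∀ x y, l (x * y) = l (y * x)) ∧ ∀ x, (∀ y, l (x * y) = 0) → x = 0

/-- A right module `M` over `S` is a generator if the right module `S` is isomorphic to a direct
summand of a finite power of `M`. -/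
def IsGenerator (S M : Type u) [Ring S] [AddCommGroup M] [Module Sᵐᵒᵖ M] : Prop :=
  ∃ (n : ℕ) (i : S →ₗ[Sᵐᵒᵖ] (Fin n → M)) (p : (Fin n → M) →ₗ[Sᵐᵒᵖ] S), p ∘ₗ i = LinearMap.id

/-- `A` is gendo-symmetric: it is the endomorphism algebra of a finite-dimensional generator over
a finite-dimensional (connected, non-semisimple) symmetric algebra. -/
def IsGendoSymmetric (K A : Type u) [Field K] [Ring A] [Algebra K A] : Prop :=
  ∃ (S : Type u) (_ : Ring S) (_ : Algebra K S) (M : Type u) (_ : AddCommGroup M)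
    (_ : Module K M) (_ : Module Sᵐᵒᵖ M) (_ : IsScalarTower K Sᵐᵒᵖ M),
    Module.Finite K S ∧ IsConnectedRing S ∧ ¬ IsSemisimpleRing S ∧ Module.Finite K M ∧
      IsSymmetricAlgebra K S ∧ IsGenerator S M ∧ Nonempty (A ≃ₐ[K] Module.End Sᵐᵒᵖ M)

end W881.GS
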