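/-
For a finite-dimensional algebra `B` over a field `K`, with dual bimodule `D = Hom_K(B, K)`,
the algebra `Gam K B` of 2 by 2 matrices with entries in `B + D`, `D`, `B`, `B`.
-/
import Mathlib

namespace W881.GS

open MulOpposite

universe u

/-- The dual bimodule of an algebra. -/
def Du (K : Type u) (B : Type u) [Field K] [Ring B] [Algebra K B] : Type u := B →ₗ[K] K

section Dual

variable (K B : Type u) [Field K] [Ring B] [Algebra K B]

instance : AddCommGroup (Du K B) := inferInstanceAs (AddCommGroup (B →ₗ[K] K))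

instance : Module K (Du K B) := inferInstanceAs (Module K (B →ₗ[K] K))

variable {K B}

/-- evaluation -/
def Du.ev (φ : Du K B) (x : B) : K := (show B →ₗ[K] K from φ) x

theorem Du.ext {φ ψ : Du K B} (h : ∀ x, φ.ev x = ψ.ev x) : φ = ψ := LinearMap.ext h

@[simp] theorem Du.ev_add (φ ψ : Du K B) (x : B) : (φ + ψ).ev x = φ.ev x + ψ.ev x := rfl
@[simp] theorem Du.ev_zero (x : B) : (0 : Du K B).ev x = 0 := rfl
@[simp] theorem Du.ev_neg (φ : Du K B) (x : B) : (-φ).ev x = -φ.ev x := rfl
@[simp] theorem Du.ev_sub (φ ψ : Du K B) (x : B) : (φ - ψ).ev x = φ.ev x - ψ.ev x := rfl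
@[simp] theorem Du.ev_smul (c : K) (φ : Du K B) (x : B) : (c • φ).ev x = c * φ.ev x := rfl
@[simp] theorem Du.ev_add' (φ : Du K B) (x y : B) : φ.ev (x + y) = φ.ev x + φ.ev y :=
  map_add (show B →ₗ[K] K from φ) x y
@[simp] theorem Du.ev_zero' (φ : Du K B) : φ.ev 0 = 0 := map_zero (show B →ₗ[K] K from φ)
@[simp] theorem Du.ev_smul' (φ : Du K B) (c : K) (x : B) : φ.ev (c • x) = c * φ.ev x :=
  map_smul (show B →ₗ[K] K from φ) c x

/-- constructor -/
def Du.mk (f : B →ₗ[K] K) : Du K B := f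

@[simp] theorem Du.ev_mk (f : B →ₗ[K] K) (x : B) : (Du.mk f).ev x = f x := rfl

/-- `b • φ = φ(· b)`. -/
instance : SMul B (Du K B) := ⟨fun b φ => Du.mk ((show B →ₗ[K] K from φ) ∘ₗ LinearMap.mulRight K b)⟩

/-- `φ • b = φ(b ·)`. -/
instance : SMul Bᵐᵒᵖ (Du K B) :=
  ⟨fun b φ => Du.mk ((show B →ₗ[K] K from φ) ∘ₗ LinearMap.mulLeft K b.unop)⟩

@[simp] theorem Du.ev_lsmul (b : B) (φ : Du K B) (x : B) : (b • φ).ev x = φ.ev (x * b) := rfl
@[simp] theorem Du.ev_rsmul (b : Bᵐᵒᵖ) (φ : Du K B) (x : B) :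
    (b • φ).ev x = φ.ev (b.unop * x) := rfl

instance : Module B (Du K B) where
  one_smul φ := Du.ext fun x => by simp
  mul_smul a b φ := Du.ext fun x => by simp [mul_assoc]
  smul_zero a := Du.ext fun x => by simp
  smul_add a φ ψ := Du.ext fun x => by simp
  add_smul a b φ := Du.ext fun x => by simp [mul_add]
  zero_smul φ := Du.ext fun x => by simp

instance : Module Bᵐᵒᵖ (Du K B) where
  one_smul φ := Du.ext fun x => by simp
  mul_smul a b φ := Du.ext fun x => by simp [mul_assoc]
  smul_zero a := Du.ext fun x => by simp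
  smul_add a φ ψ := Du.ext fun x => by simp
  add_smul a b φ := Du.ext fun x => by simp [add_mul]
  zero_smul φ := Du.ext fun x => by simp

instance : SMulCommClass B Bᵐᵒᵖ (Du K B) where
  smul_comm a b φ := Du.ext fun x => by simp [mul_assoc]

instance : IsScalarTower K B (Du K B) where
  smul_assoc c b φ := Du.ext fun x => by simp

instance : IsScalarTower K Bᵐᵒᵖ (Du K B) where
  smul_assoc c b φ := Du.ext fun x => by simp

end Dual

/-- The matrix algebra with entries `b11 + d11`, `d12`, `b21`, `b22`. -/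
@[ext] structure Gam (K : Type u) (B : Type u) [Field K] [Ring B] [Algebra K B] where
  b11 : B
  d11 : Du K B
  d12 : Du K B
  b21 : B
  b22 : B

namespace Gam

variable {K B : Type u} [Field K] [Ring B] [Algebra K B]

instance : Zero (Gam K B) := ⟨⟨0, 0, 0, 0, 0⟩⟩
instance : One (Gam K B) := ⟨⟨1, 0, 0, 0, 1⟩⟩
instance : Add (Gam K B) := ⟨fun g h => ⟨g.b11 + h.b11, g.d11 + h.d11, g.d12 + h.d12,
  g.b21 + h.b21, g.b22 + h.b22⟩⟩
instance : Neg (Gam K B) := ⟨fun g => ⟨-g.b11, -g.d11, -g.d12, -g.b21, -g.b22⟩⟩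
instance : Sub (Gam K B) := ⟨fun g h => ⟨g.b11 - h.b11, g.d11 - h.d11, g.d12 - h.d12,
  g.b21 - h.b21, g.b22 - h.b22⟩⟩
instance : Mul (Gam K B) := ⟨fun g h =>
  ⟨g.b11 * h.b11,
   g.b11 • h.d11 + op h.b11 • g.d11 + op h.b21 • g.d12,
   g.b11 • h.d12 + op h.b22 • g.d12,
   g.b21 * h.b11 + g.b22 * h.b21,
   g.b22 * h.b22⟩⟩
instance : SMul K (Gam K B) := ⟨fun c g => ⟨c • g.b11, c • g.d11, c • g.d12, c • g.b21, c • g.b22⟩⟩

@[simp] theorem zero_b11 : (0 : Gam K B).b11 = 0 := rfl
@[simp] theorem zero_d11 : (0 : Gam K B).d11 = 0 := rfl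
@[simp] theorem zero_d12 : (0 : Gam K B).d12 = 0 := rfl
@[simp] theorem zero_b21 : (0 : Gam K B).b21 = 0 := rfl
@[simp] theorem zero_b22 : (0 : Gam K B).b22 = 0 := rfl
@[simp] theorem one_b11 : (1 : Gam K B).b11 = 1 := rfl
@[simp] theorem one_d11 : (1 : Gam K B).d11 = 0 := rfl
@[simp] theorem one_d12 : (1 : Gam K B).d12 = 0 := rfl
@[simp] theorem one_b21 : (1 : Gam K B).b21 = 0 := rfl
@[simp] theorem one_b22 : (1 : Gam K B).b22 = 1 := rfl
@[simp] theorem add_b11 (g h : Gam K B) : (g + h).b11 = g.b11 + h.b11 := rfl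
@[simp] theorem add_d11 (g h : Gam K B) : (g + h).d11 = g.d11 + h.d11 := rfl
@[simp] theorem add_d12 (g h : Gam K B) : (g + h).d12 = g.d12 + h.d12 := rfl
@[simp] theorem add_b21 (g h : Gam K B) : (g + h).b21 = g.b21 + h.b21 := rfl
@[simp] theorem add_b22 (g h : Gam K B) : (g + h).b22 = g.b22 + h.b22 := rfl
@[simp] theorem neg_b11 (g : Gam K B) : (-g).b11 = -g.b11 := rfl
@[simp] theorem neg_d11 (g : Gam K B) : (-g).d11 = -g.d11 := rfl
@[simp] theorem neg_d12 (g : Gam K B) : (-g).d12 = -g.d12 := rfl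
@[simp] theorem neg_b21 (g : Gam K B) : (-g).b21 = -g.b21 := rfl
@[simp] theorem neg_b22 (g : Gam K B) : (-g).b22 = -g.b22 := rfl
@[simp] theorem sub_b11 (g h : Gam K B) : (g - h).b11 = g.b11 - h.b11 := rfl
@[simp] theorem sub_d11 (g h : Gam K B) : (g - h).d11 = g.d11 - h.d11 := rfl
@[simp] theorem sub_d12 (g h : Gam K B) : (g - h).d12 = g.d12 - h.d12 := rfl
@[simp] theorem sub_b21 (g h : Gam K B) : (g - h).b21 = g.b21 - h.b21 := rfl
@[simp] theorem sub_b22 (g h : Gam K B) : (g - h).b22 = g.b22 - h.b22 := rfl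
@[simp] theorem smul_b11 (c : K) (g : Gam K B) : (c • g).b11 = c • g.b11 := rfl
@[simp] theorem smul_d11 (c : K) (g : Gam K B) : (c • g).d11 = c • g.d11 := rfl
@[simp] theorem smul_d12 (c : K) (g : Gam K B) : (c • g).d12 = c • g.d12 := rfl
@[simp] theorem smul_b21 (c : K) (g : Gam K B) : (c • g).b21 = c • g.b21 := rfl
@[simp] theorem smul_b22 (c : K) (g : Gam K B) : (c • g).b22 = c • g.b22 := rfl
@[simp] theorem mul_b11 (g h : Gam K B) : (g * h).b11 = g.b11 * h.b11 := rfl
@[simp] theorem mul_d11 (g h : Gam K B) : (g * h).d11 =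
    g.b11 • h.d11 + op h.b11 • g.d11 + op h.b21 • g.d12 := rfl
@[simp] theorem mul_d12 (g h : Gam K B) : (g * h).d12 = g.b11 • h.d12 + op h.b22 • g.d12 := rfl
@[simp] theorem mul_b21 (g h : Gam K B) : (g * h).b21 = g.b21 * h.b11 + g.b22 * h.b21 := rfl
@[simp] theorem mul_b22 (g h : Gam K B) : (g * h).b22 = g.b22 * h.b22 := rfl

instance : AddCommGroup (Gam K B) where
  add_assoc g h k := by ext <;> simp [add_assoc]
  zero_add g := by ext <;> simp
  add_zero g := by ext <;> simp
  add_comm g h := by ext <;> simp [add_comm]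
  neg_add_cancel g := by ext <;> simp
  sub_eq_add_neg g h := by ext <;> simp [sub_eq_add_neg]
  nsmul := nsmulRec
  zsmul := zsmulRec

instance : Module K (Gam K B) where
  one_smul g := by ext <;> simp
  mul_smul a b g := by ext <;> simp [mul_smul]
  smul_zero a := by ext <;> simp
  smul_add a g h := by ext <;> simp
  add_smul a b g := by ext <;> simp [add_smul]
  zero_smul g := by ext <;> simp

instance : Ring (Gam K B) where
  mul_assoc g h k := by
    ext
    · simp [mul_assoc]
    · simp only [mul_d11, mul_b11, mul_d12, mul_b21, smul_add, mul_smul, op_mul, op_add, add_smul]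
      rw [smul_comm g.b11 (op k.b11) h.d11, smul_comm g.b11 (op k.b21) h.d12]
      abel
    · simp only [mul_d12, mul_b11, mul_b22, smul_add, mul_smul, op_mul]
      rw [smul_comm g.b11 (op k.b22) h.d12]
      abel
    · simp only [mul_b21, mul_b11, mul_b22]
      noncomm_ring
    · simp [mul_assoc]
  one_mul g := by ext <;> simp
  mul_one g := by ext <;> simp
  left_distrib g h k := by
    ext
    · simp [mul_add]
    · simp only [mul_d11, add_b11, add_d11, add_b21, smul_add, op_add, add_smul]; abel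
    · simp only [mul_d12, add_d12, add_b22, smul_add, op_add, add_smul]; abel
    · simp only [mul_b21, add_b11, add_b21, mul_add]; abel
    · simp [mul_add]
  right_distrib g h k := by
    ext
    · simp [add_mul]
    · simp only [mul_d11, add_b11, add_d11, add_d12, smul_add, add_smul]; abel
    · simp only [mul_d12, add_d12, add_b11, smul_add, add_smul]; abel
    · simp only [mul_b21, add_b22, add_b21, add_mul]; abel
    · simp [add_mul]
  zero_mul g := by ext <;> simp
  mul_zero g := by ext <;> simp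
  neg_add_cancel g := by ext <;> simp
  sub_eq_add_neg g h := by ext <;> simp [sub_eq_add_neg]
  zsmul := zsmulRec

instance : Algebra K (Gam K B) := Algebra.ofModule
  (fun c g h => by
    ext
    · simp
    · simp only [mul_d11, smul_b11, smul_d11, smul_d12, smul_add]
      rw [smul_assoc, smul_comm (op h.b11) c g.d11, smul_comm (op h.b21) c g.d12]
    · simp only [mul_d12, smul_b11, smul_d12, smul_add]
      rw [smul_assoc, smul_comm (op h.b22) c g.d12]
    · simp
    · simp)
  (fun c g h => by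
    ext
    · simp
    · simp only [mul_d11, smul_b11, smul_d11, smul_b21, smul_add, op_smul]
      rw [smul_comm g.b11 c h.d11, smul_assoc, smul_assoc]
    · simp only [mul_d12, smul_b22, smul_d12, smul_add, op_smul]
      rw [smul_comm g.b11 c h.d12, smul_assoc]
    · simp
    · simp)

end Gam

end W881.GS
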