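/-
Gendo-symmetric algebras, and the fact that `Gam K B` is gendo-symmetric: it is the algebra of
endomorphisms of the right module `T + B` over the trivial extension `T` of `B`.
-/
import Pool.Agent.W881.GamRing
import Pool.Agent.W881.GamDefs

namespace W881.GS

open MulOpposite W450.Rig

universe u

section

variable (K B : Type u) [Field K] [Ring B] [Algebra K B]

/-- The trivial extension of `B` by its dual. -/
abbrev Tri : Type u := TrivSqZeroExt B (Du K B)

variable {K B}

theorem eq_zero_of_dual {b : B} (h : ∀ φ : Du K B, φ.ev b = 0) : b = 0 :=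
  (Module.forall_dual_apply_eq_zero_iff K b).1 fun f => h (Du.mk f)

/-- The symmetrizing form of the trivial extension. -/
def triForm : Tri K B →ₗ[K] K where
  toFun t := t.snd.ev 1
  map_add' s t := by simp
  map_smul' c t := by simp

theorem triForm_apply (t : Tri K B) : triForm t = t.snd.ev 1 := rfl

theorem tri_symmetric : IsSymmetricAlgebra K (Tri K B) := by
  refine ⟨triForm, fun s t => ?_, fun s hs => ?_⟩
  · simp [triForm_apply, add_comm]
  · have h1 : s.fst = 0 := by
      refine eq_zero_of_dual (K := K) fun φ => ?_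
      have := hs (TrivSqZeroExt.inr φ)
      simpa [triForm_apply] using this
    have h2 : s.snd = 0 := by
      refine Du.ext fun x => ?_
      have := hs (TrivSqZeroExt.inl x)
      simpa [triForm_apply] using this
    exact TrivSqZeroExt.ext h1 h2

theorem not_semisimple_of' {A : Type u} [Ring A] (x : A) (hx : x ≠ 0)
    (h : ∀ a : A, x * a * x = 0) : ¬ IsSemisimpleRing A := by
  intro hs
  obtain ⟨N', hN'⟩ := exists_isCompl (Submodule.span A {x})
  have h1 : (1 : A) ∈ Submodule.span A {x} ⊔ N' := by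
    rw [hN'.sup_eq_top]; exact Submodule.mem_top
  obtain ⟨y, hy, z, hz, hyz⟩ := Submodule.mem_sup.1 h1
  obtain ⟨a, rfl⟩ := Submodule.mem_span_singleton.1 hy
  have h2 : x = x * z := by
    calc x = x * (a • x + z) := by rw [hyz, mul_one]
      _ = x * a * x + x * z := by rw [mul_add, smul_eq_mul, mul_assoc]
      _ = x * z := by rw [h, zero_add]
  have h3 : x ∈ N' := by
    rw [h2]; exact N'.smul_mem x hz
  have h4 : x ∈ Submodule.span A {x} ⊓ N' := ⟨Submodule.mem_span_singleton_self x, h3⟩
  rw [hN'.inf_eq_bot] at h4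
  exact hx ((Submodule.mem_bot A).1 h4)

theorem exists_dual_ne [Nontrivial B] : ∃ φ : Du K B, φ ≠ 0 := by
  by_contra h
  push Not at h
  refine one_ne_zero (α := B) (eq_zero_of_dual (K := K) fun φ => ?_)
  rw [h φ, Du.ev_zero]

theorem tri_not_semisimple [Nontrivial B] : ¬ IsSemisimpleRing (Tri K B) := by
  obtain ⟨φ, hφ⟩ := exists_dual_ne (K := K) (B := B)
  refine not_semisimple_of' (TrivSqZeroExt.inr φ) (fun h => hφ ?_) fun a => ?_
  · exact TrivSqZeroExt.inr_injective (h.trans (TrivSqZeroExt.inr_zero B).symm)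
  · refine TrivSqZeroExt.ext ?_ ?_ <;> simp

theorem tri_connected (hB : IsConnectedRing B) : IsConnectedRing (Tri K B) := by
  obtain ⟨h0, h1⟩ := hB
  refine ⟨inferInstance, fun c hc hcc => ?_⟩
  have e1 := congrArg TrivSqZeroExt.fst hcc
  have e2 := congrArg TrivSqZeroExt.snd hcc
  simp only [TrivSqZeroExt.fst_mul, TrivSqZeroExt.snd_mul] at e1 e2
  rcases h1 c.fst (fun b => by
    have := congrArg TrivSqZeroExt.fst (hc (TrivSqZeroExt.inl b))
    simpa using this) e1 with h | h
  · left
    rw [h] at e2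
    refine TrivSqZeroExt.ext h ?_
    rw [← e2]
    simp
  · right
    rw [h] at e2
    refine TrivSqZeroExt.ext h ?_
    simpa using e2

/-- The right module `T + B`. -/
@[ext] structure TB (K B : Type u) [Field K] [Ring B] [Algebra K B] where
  x : B
  φ : Du K B
  y : B

namespace TB

instance : Zero (TB K B) := ⟨⟨0, 0, 0⟩⟩
instance : Add (TB K B) := ⟨fun m n => ⟨m.x + n.x, m.φ + n.φ, m.y + n.y⟩⟩
instance : Neg (TB K B) := ⟨fun m => ⟨-m.x, -m.φ, -m.y⟩⟩
instance : SMul K (TB K B) := ⟨fun c m => ⟨c • m.x, c • m.φ, c • m.y⟩⟩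
instance : SMul (Tri K B)ᵐᵒᵖ (TB K B) := ⟨fun t m =>
  ⟨m.x * t.unop.fst, m.x • t.unop.snd + op t.unop.fst • m.φ, m.y * t.unop.fst⟩⟩

@[simp] theorem zero_x : (0 : TB K B).x = 0 := rfl
@[simp] theorem zero_φ : (0 : TB K B).φ = 0 := rfl
@[simp] theorem zero_y : (0 : TB K B).y = 0 := rfl
@[simp] theorem add_x (m n : TB K B) : (m + n).x = m.x + n.x := rfl
@[simp] theorem add_φ (m n : TB K B) : (m + n).φ = m.φ + n.φ := rfl
@[simp] theorem add_y (m n : TB K B) : (m + n).y = m.y + n.y := rfl
@[simp] theorem neg_x (m : TB K B) : (-m).x = -m.x := rfl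
@[simp] theorem neg_φ (m : TB K B) : (-m).φ = -m.φ := rfl
@[simp] theorem neg_y (m : TB K B) : (-m).y = -m.y := rfl
@[simp] theorem smul_x (c : K) (m : TB K B) : (c • m).x = c • m.x := rfl
@[simp] theorem smul_φ (c : K) (m : TB K B) : (c • m).φ = c • m.φ := rfl
@[simp] theorem smul_y (c : K) (m : TB K B) : (c • m).y = c • m.y := rfl
@[simp] theorem rsmul_x (t : (Tri K B)ᵐᵒᵖ) (m : TB K B) : (t • m).x = m.x * t.unop.fst := rfl
@[simp] theorem rsmul_φ (t : (Tri K B)ᵐᵒᵖ) (m : TB K B) :
    (t • m).φ = m.x • t.unop.snd + op t.unop.fst • m.φ := rfl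
@[simp] theorem rsmul_y (t : (Tri K B)ᵐᵒᵖ) (m : TB K B) : (t • m).y = m.y * t.unop.fst := rfl

instance : AddCommGroup (TB K B) where
  add_assoc g h k := by ext <;> simp [add_assoc]
  zero_add g := by ext <;> simp
  add_zero g := by ext <;> simp
  add_comm g h := by ext <;> simp [add_comm]
  neg_add_cancel g := by ext <;> simp
  nsmul := nsmulRec
  zsmul := zsmulRec

instance : Module K (TB K B) where
  one_smul g := by ext <;> simp
  mul_smul a b g := by ext <;> simp [mul_smul]
  smul_zero a := by ext <;> simp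
  smul_add a g h := by ext <;> simp
  add_smul a b g := by ext <;> simp [add_smul]
  zero_smul g := by ext <;> simp

instance : Module (Tri K B)ᵐᵒᵖ (TB K B) where
  one_smul g := by ext1 <;> simp
  mul_smul s t m := by
    ext1
    · simp [mul_assoc]
    · simp only [rsmul_φ, rsmul_x, unop_mul, TrivSqZeroExt.snd_mul, TrivSqZeroExt.fst_mul,
        smul_add, mul_smul, op_mul]
      rw [smul_comm m.x (op s.unop.fst) t.unop.snd]
      abel
    · simp [mul_assoc]
  smul_zero a := by ext1 <;> simp
  smul_add a g h := by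
    ext1
    · simp [add_mul]
    · simp only [rsmul_φ, add_x, add_φ, smul_add, add_smul]; abel
    · simp [add_mul]
  add_smul a b g := by
    ext1
    · simp [mul_add]
    · simp only [rsmul_φ, add_φ, unop_add, TrivSqZeroExt.snd_add, TrivSqZeroExt.fst_add,
        smul_add, add_smul, op_add]
      abel
    · simp [mul_add]
  zero_smul g := by ext1 <;> simp

instance : IsScalarTower K (Tri K B)ᵐᵒᵖ (TB K B) where
  smul_assoc c t m := by
    ext1
    · simp
    · simp only [rsmul_φ, smul_φ, unop_smul, TrivSqZeroExt.snd_smul, TrivSqZeroExt.fst_smul,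
        smul_add, op_smul, smul_assoc]
      rw [smul_comm m.x c]
    · simp

end TB

/-- The action of `Gam` on columns. -/
def toEnd (g : Gam K B) : Module.End (Tri K B)ᵐᵒᵖ (TB K B) where
  toFun m := ⟨g.b11 * m.x, g.b11 • m.φ + op m.x • g.d11 + op m.y • g.d12,
    g.b21 * m.x + g.b22 * m.y⟩
  map_add' m n := by
    ext1
    · simp [mul_add]
    · simp only [TB.add_φ, TB.add_x, TB.add_y, smul_add, op_add, add_smul]; abel
    · simp only [TB.add_x, TB.add_y, mul_add]; abel
  map_smul' t m := by
    ext1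
    · simp [mul_assoc]
    · simp only [TB.rsmul_φ, TB.rsmul_x, TB.rsmul_y, smul_add, op_mul, mul_smul, RingHom.id_apply]
      rw [smul_comm g.b11 (op t.unop.fst) m.φ]
      abel
    · simp [mul_assoc, add_mul]

@[simp] theorem toEnd_x (g : Gam K B) (m : TB K B) : (toEnd g m).x = g.b11 * m.x := rfl
@[simp] theorem toEnd_φ (g : Gam K B) (m : TB K B) :
    (toEnd g m).φ = g.b11 • m.φ + op m.x • g.d11 + op m.y • g.d12 := rfl
@[simp] theorem toEnd_y (g : Gam K B) (m : TB K B) :
    (toEnd g m).y = g.b21 * m.x + g.b22 * m.y := rfl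

/-- The algebra homomorphism to the endomorphism algebra. -/
def toEndHom : Gam K B →ₐ[K] Module.End (Tri K B)ᵐᵒᵖ (TB K B) :=
  AlgHom.ofLinearMap
    { toFun := toEnd
      map_add' := fun g h => by
        refine LinearMap.ext fun m => ?_
        ext1
        · simp [add_mul]
        · simp only [toEnd_φ, LinearMap.add_apply, TB.add_φ, Gam.add_b11, Gam.add_d11,
            Gam.add_d12, add_smul, smul_add]; abel
        · simp only [toEnd_y, LinearMap.add_apply, TB.add_y, Gam.add_b21, Gam.add_b22, add_mul]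
          abel
      map_smul' := fun c g => by
        refine LinearMap.ext fun m => ?_
        ext1
        · simp
        · simp only [toEnd_φ, LinearMap.smul_apply, TB.smul_φ, Gam.smul_b11, Gam.smul_d11,
            Gam.smul_d12, smul_add, RingHom.id_apply, smul_assoc]
          rw [smul_comm (op m.x) c, smul_comm (op m.y) c]
        · simp }
    (by
      refine LinearMap.ext fun m => ?_
      ext1
      · simp
      · simp
      · simp)
    (fun g h => by
      refine LinearMap.ext fun m => ?_
      ext1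
      · simp [mul_assoc]
      · simp only [LinearMap.coe_mk, AddHom.coe_mk, toEnd_φ, Module.End.mul_apply, toEnd_x,
          toEnd_y, Gam.mul_b11, Gam.mul_d11, Gam.mul_d12, smul_add, mul_smul, op_mul, op_add,
          add_smul]
        rw [smul_comm g.b11 (op m.x), smul_comm g.b11 (op m.y)]
        abel
      · simp only [LinearMap.coe_mk, AddHom.coe_mk, toEnd_y, Module.End.mul_apply, toEnd_x,
          Gam.mul_b21, Gam.mul_b22]
        noncomm_ring)

theorem toEndHom_bijective : Function.Bijective (toEndHom (K := K) (B := B)) := by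
  constructor
  · intro g h hgh
    have hgh' : toEnd g = toEnd h := hgh
    have h1 := congrArg (fun f => f (⟨1, 0, 0⟩ : TB K B)) hgh'
    have h2 := congrArg (fun f => f (⟨0, 0, 1⟩ : TB K B)) hgh'
    have a1 := congrArg TB.x h1
    have a2 := congrArg TB.φ h1
    have a3 := congrArg TB.y h1
    have a4 := congrArg TB.φ h2
    have a5 := congrArg TB.y h2
    simp only [toEnd_x, toEnd_φ, toEnd_y, mul_one, mul_zero, add_zero, zero_add, smul_zero,
      op_one, op_zero, one_smul, zero_smul] at a1 a2 a3 a4 a5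
    ext1 <;> assumption
  · intro f
    have hx : (f ⟨0, 0, 1⟩).x = 0 := by
      refine eq_zero_of_dual (K := K) fun φ => ?_
      have h1 : (op (TrivSqZeroExt.inr φ : Tri K B)) • (⟨0, 0, 1⟩ : TB K B) = 0 := by
        ext1 <;> simp
      have h2 := congrArg TB.φ (map_smul f (op (TrivSqZeroExt.inr φ : Tri K B)) ⟨0, 0, 1⟩)
      rw [h1, map_zero] at h2
      have h3 := congrArg (fun ψ => Du.ev ψ 1) h2
      simpa using h3.symm
    refine ⟨⟨(f ⟨1, 0, 0⟩).x, (f ⟨1, 0, 0⟩).φ, (f ⟨0, 0, 1⟩).φ, (f ⟨1, 0, 0⟩).y,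
      (f ⟨0, 0, 1⟩).y⟩, ?_⟩
    refine LinearMap.ext fun m => ?_
    have hm : m = op ((TrivSqZeroExt.inl m.x + TrivSqZeroExt.inr m.φ : Tri K B)) •
        (⟨1, 0, 0⟩ : TB K B) + op (TrivSqZeroExt.inl m.y : Tri K B) • (⟨0, 0, 1⟩ : TB K B) := by
      ext1 <;> simp
    conv_rhs => rw [hm, map_add, map_smul, map_smul]
    change toEnd _ m = _
    ext1
    · simp [hx]
    · simp
    · simp

theorem gam_gendo [Module.Finite K B] (hB : IsConnectedRing B) :
    IsGendoSymmetric K (Gam K B) := by
  have hnt := hB.1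
  have hD : Module.Finite K (Du K B) := inferInstanceAs (Module.Finite K (Module.Dual K B))
  refine ⟨Tri K B, inferInstance, inferInstance, TB K B, inferInstance, inferInstance,
    inferInstance, inferInstance, ?_, tri_connected hB, tri_not_semisimple, ?_, tri_symmetric, ?_,
    ⟨AlgEquiv.ofBijective toEndHom toEndHom_bijective⟩⟩
  · exact inferInstanceAs (Module.Finite K (B × Du K B))
  · let e : (B × Du K B × B) →ₗ[K] TB K B :=
      { toFun := fun m => ⟨m.1, m.2.1, m.2.2⟩
        map_add' := fun _ _ => rfl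
        map_smul' := fun _ _ => rfl }
    exact Module.Finite.of_surjective e fun m => ⟨(m.x, m.φ, m.y), rfl⟩
  · refine ⟨1, ⟨⟨fun t _ => (⟨t.fst, t.snd, 0⟩ : TB K B), fun s t => ?_⟩, fun s t => ?_⟩,
      ⟨⟨fun m => (TrivSqZeroExt.inl (m 0).x + TrivSqZeroExt.inr (m 0).φ : Tri K B),
      fun s t => ?_⟩, fun s t => ?_⟩, ?_⟩
    · funext i; ext1 <;> simp
    · funext i; ext1 <;> simp
    · simp only [Pi.add_apply, TB.add_x, TB.add_φ, TrivSqZeroExt.inl_add, TrivSqZeroExt.inr_add]
      abel
    · refine TrivSqZeroExt.ext ?_ ?_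
      · simp
      · simp
    · refine LinearMap.ext fun t => ?_
      refine TrivSqZeroExt.ext ?_ ?_
      · simp
      · simp

end

end W881.GS
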