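/-
Upper triangular 2 by 2 matrices over a ring, and some elements of `Gam K (T2 A)`.
-/
import Pool.Agent.W881.GamRing

namespace W881.GS

open MulOpposite

universe u

/-- Upper triangular 2 by 2 matrices: `x` and `z` on the diagonal, `y` above it. -/
@[ext] structure T2 (A : Type u) where
  x : A
  y : A
  z : A

namespace T2

section Basics

variable {A : Type u} [Ring A]

instance : Zero (T2 A) := ⟨⟨0, 0, 0⟩⟩
instance : One (T2 A) := ⟨⟨1, 0, 1⟩⟩
instance : Add (T2 A) := ⟨fun g h => ⟨g.x + h.x, g.y + h.y, g.z + h.z⟩⟩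
instance : Neg (T2 A) := ⟨fun g => ⟨-g.x, -g.y, -g.z⟩⟩
instance : Sub (T2 A) := ⟨fun g h => ⟨g.x - h.x, g.y - h.y, g.z - h.z⟩⟩
instance : Mul (T2 A) := ⟨fun g h => ⟨g.x * h.x, g.x * h.y + g.y * h.z, g.z * h.z⟩⟩

@[simp] theorem zero_x : (0 : T2 A).x = 0 := rfl
@[simp] theorem zero_y : (0 : T2 A).y = 0 := rfl
@[simp] theorem zero_z : (0 : T2 A).z = 0 := rfl
@[simp] theorem one_x : (1 : T2 A).x = 1 := rfl
@[simp] theorem one_y : (1 : T2 A).y = 0 := rfl
@[simp] theorem one_z : (1 : T2 A).z = 1 := rfl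
@[simp] theorem add_x (g h : T2 A) : (g + h).x = g.x + h.x := rfl
@[simp] theorem add_y (g h : T2 A) : (g + h).y = g.y + h.y := rfl
@[simp] theorem add_z (g h : T2 A) : (g + h).z = g.z + h.z := rfl
@[simp] theorem neg_x (g : T2 A) : (-g).x = -g.x := rfl
@[simp] theorem neg_y (g : T2 A) : (-g).y = -g.y := rfl
@[simp] theorem neg_z (g : T2 A) : (-g).z = -g.z := rfl
@[simp] theorem sub_x (g h : T2 A) : (g - h).x = g.x - h.x := rfl
@[simp] theorem sub_y (g h : T2 A) : (g - h).y = g.y - h.y := rfl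
@[simp] theorem sub_z (g h : T2 A) : (g - h).z = g.z - h.z := rfl
@[simp] theorem mul_x (g h : T2 A) : (g * h).x = g.x * h.x := rfl
@[simp] theorem mul_y (g h : T2 A) : (g * h).y = g.x * h.y + g.y * h.z := rfl
@[simp] theorem mul_z (g h : T2 A) : (g * h).z = g.z * h.z := rfl

instance : AddCommGroup (T2 A) where
  add_assoc g h k := by ext <;> simp [add_assoc]
  zero_add g := by ext <;> simp
  add_zero g := by ext <;> simp
  add_comm g h := by ext <;> simp [add_comm]
  neg_add_cancel g := by ext <;> simp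
  sub_eq_add_neg g h := by ext <;> simp [sub_eq_add_neg]
  nsmul := nsmulRec
  zsmul := zsmulRec

instance : Ring (T2 A) where
  mul_assoc g h k := by
    ext
    · simp [mul_assoc]
    · simp only [mul_y, mul_x, mul_z]; noncomm_ring
    · simp [mul_assoc]
  one_mul g := by ext <;> simp
  mul_one g := by ext <;> simp
  left_distrib g h k := by
    ext
    · simp [mul_add]
    · simp only [mul_y, add_y, add_z]; noncomm_ring
    · simp [mul_add]
  right_distrib g h k := by
    ext
    · simp [add_mul]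
    · simp only [mul_y, add_y, add_x]; noncomm_ring
    · simp [add_mul]
  zero_mul g := by ext <;> simp
  mul_zero g := by ext <;> simp
  neg_add_cancel g := by ext <;> simp
  sub_eq_add_neg g h := by ext <;> simp [sub_eq_add_neg]
  zsmul := zsmulRec

end Basics

section Alg

variable {K A : Type u} [Field K] [Ring A] [Algebra K A]

instance : SMul K (T2 A) := ⟨fun c g => ⟨c • g.x, c • g.y, c • g.z⟩⟩

@[simp] theorem smul_x (c : K) (g : T2 A) : (c • g).x = c • g.x := rfl
@[simp] theorem smul_y (c : K) (g : T2 A) : (c • g).y = c • g.y := rfl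
@[simp] theorem smul_z (c : K) (g : T2 A) : (c • g).z = c • g.z := rfl

instance : Module K (T2 A) where
  one_smul g := by ext <;> simp
  mul_smul a b g := by ext <;> simp [mul_smul]
  smul_zero a := by ext <;> simp
  smul_add a g h := by ext <;> simp
  add_smul a b g := by ext <;> simp [add_smul]
  zero_smul g := by ext <;> simp

instance : Algebra K (T2 A) := Algebra.ofModule
  (fun c g h => by ext <;> simp [smul_add])
  (fun c g h => by ext <;> simp [smul_add])

variable (K A)

/-- As a vector space `T2 A` is `A × A × A`. -/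
def equivProd : T2 A ≃ₗ[K] A × A × A where
  toFun g := (g.x, g.y, g.z)
  invFun p := ⟨p.1, p.2.1, p.2.2⟩
  map_add' _ _ := rfl
  map_smul' _ _ := rfl
  left_inv _ := rfl
  right_inv _ := rfl

instance [Module.Finite K A] : Module.Finite K (T2 A) :=
  Module.Finite.equiv (equivProd K A).symm

end Alg

end T2

namespace Gam

variable (K : Type u) (B : Type u) [Field K] [Ring B] [Algebra K B]

/-- As a vector space `Gam K B` is a product. -/
def equivProd : Gam K B ≃ₗ[K] B × Du K B × Du K B × B × B where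
  toFun g := (g.b11, g.d11, g.d12, g.b21, g.b22)
  invFun p := ⟨p.1, p.2.1, p.2.2.1, p.2.2.2.1, p.2.2.2.2⟩
  map_add' _ _ := rfl
  map_smul' _ _ := rfl
  left_inv _ := rfl
  right_inv _ := rfl

instance [Module.Finite K B] : Module.Finite K (Du K B) :=
  inferInstanceAs (Module.Finite K (B →ₗ[K] K))

instance [Module.Finite K B] : Module.Finite K (Gam K B) :=
  Module.Finite.equiv (equivProd K B).symm

end Gam

section Elements

variable {K A : Type u} [Field K] [Ring A] [Algebra K A]

/-- the element of `Gam K (T2 A)` with the given `b11`, `b21`, `b22` and no dual parts -/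
def mkE (K : Type u) {A : Type u} [Field K] [Ring A] [Algebra K A] (p q r : T2 A) :
    Gam K (T2 A) := ⟨p, 0, 0, q, r⟩

@[simp] theorem mkE_b11 (p q r : T2 A) : (mkE K p q r).b11 = p := rfl
@[simp] theorem mkE_d11 (p q r : T2 A) : (mkE K p q r).d11 = 0 := rfl
@[simp] theorem mkE_d12 (p q r : T2 A) : (mkE K p q r).d12 = 0 := rfl
@[simp] theorem mkE_b21 (p q r : T2 A) : (mkE K p q r).b21 = q := rfl
@[simp] theorem mkE_b22 (p q r : T2 A) : (mkE K p q r).b22 = r := rfl

/-- idempotent -/
def ea (K A : Type u) [Field K] [Ring A] [Algebra K A] : Gam K (T2 A) := mkE K ⟨1, 0, 0⟩ 0 0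
/-- idempotent -/
def eb (K A : Type u) [Field K] [Ring A] [Algebra K A] : Gam K (T2 A) := mkE K ⟨0, 0, 1⟩ 0 0
/-- idempotent -/
def fa (K A : Type u) [Field K] [Ring A] [Algebra K A] : Gam K (T2 A) := mkE K 0 0 ⟨1, 0, 0⟩
/-- idempotent -/
def fb (K A : Type u) [Field K] [Ring A] [Algebra K A] : Gam K (T2 A) := mkE K 0 0 ⟨0, 0, 1⟩
/-- arrow -/
def uu (K A : Type u) [Field K] [Ring A] [Algebra K A] : Gam K (T2 A) := mkE K ⟨0, 1, 0⟩ 0 0
/-- arrow -/
def ww (K A : Type u) [Field K] [Ring A] [Algebra K A] : Gam K (T2 A) := mkE K 0 0 ⟨0, 1, 0⟩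
/-- arrow -/
def ia (K A : Type u) [Field K] [Ring A] [Algebra K A] : Gam K (T2 A) := mkE K 0 ⟨1, 0, 0⟩ 0
/-- arrow -/
def ib (K A : Type u) [Field K] [Ring A] [Algebra K A] : Gam K (T2 A) := mkE K 0 ⟨0, 0, 1⟩ 0

/-- The projection of `Gam K (T2 A)` onto `A`. -/
def sig (K A : Type u) [Field K] [Ring A] [Algebra K A] : Gam K (T2 A) →+* A where
  toFun g := g.b22.x
  map_one' := rfl
  map_mul' _ _ := rfl
  map_zero' := rfl
  map_add' _ _ := rfl

@[simp] theorem sig_apply (g : Gam K (T2 A)) : sig K A g = g.b22.x := rfl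

theorem sig_surjective : Function.Surjective (sig K A) := fun a => ⟨mkE K 0 0 ⟨a, 0, 0⟩, rfl⟩

theorem ea_idem : ea K A * ea K A = ea K A := by
  apply Gam.ext <;> simp [ea] <;> apply T2.ext <;> simp

end Elements

end W881.GS
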