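/-
`Gam K (T2 A)` is connected and not semisimple.
-/
import Pool.Agent.W881.GamSym
import Pool.Agent.W881.GamT2

namespace W881.GS

open MulOpposite W450.Rig

universe u

theorem t2_connected {A : Type u} [Ring A] (hA : IsConnectedRing A) : IsConnectedRing (T2 A) := by
  obtain ⟨h0, h1⟩ := hA
  refine ⟨⟨0, 1, fun h => zero_ne_one (congrArg T2.x h)⟩, fun c hc hcc => ?_⟩
  have a1 := congrArg T2.y (hc ⟨1, 0, 0⟩)
  have a2 := congrArg T2.y (hc ⟨0, 1, 0⟩)
  simp only [T2.mul_y, mul_zero, add_zero, mul_one, one_mul, zero_mul, zero_add] at a1 a2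
  have e1 := congrArg T2.x hcc
  simp only [T2.mul_x] at e1
  rcases h1 c.x (fun a => by
    have := congrArg T2.x (hc ⟨a, 0, 0⟩)
    simpa using this) e1 with h | h
  · left
    exact T2.ext h a1.symm (a2 ▸ h)
  · right
    exact T2.ext h a1.symm (a2 ▸ h)

variable {K B : Type u} [Field K] [Ring B] [Algebra K B]

theorem gam_connected (hB : IsConnectedRing B) : IsConnectedRing (Gam K B) := by
  obtain ⟨h0, h1⟩ := hB
  refine ⟨⟨0, 1, fun h => zero_ne_one (congrArg Gam.b11 h)⟩, fun c hc hcc => ?_⟩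
  have a1 := congrArg Gam.d12 (hc ⟨1, 0, 0, 0, 0⟩)
  have a2 := congrArg Gam.b21 (hc ⟨1, 0, 0, 0, 0⟩)
  have a3 := congrArg Gam.b21 (hc ⟨0, 0, 0, 1, 0⟩)
  simp only [Gam.mul_d12, smul_zero, zero_smul, op_zero, add_zero, one_smul, zero_add,
    Gam.mul_b21, mul_one, mul_zero, zero_mul, one_mul] at a1 a2 a3
  have e1 := congrArg Gam.b11 hcc
  have e2 := congrArg Gam.d11 hcc
  simp only [Gam.mul_b11, Gam.mul_d11] at e1 e2
  rcases h1 c.b11 (fun b => by
    have := congrArg Gam.b11 (hc ⟨b, 0, 0, 0, 0⟩)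
    simpa using this) e1 with h | h
  · left
    rw [h, ← a1, a2] at e2
    simp only [zero_smul, op_zero, add_zero] at e2
    exact Gam.ext h e2.symm a1.symm a2 (a3.trans h)
  · right
    rw [h, ← a1, a2] at e2
    simp only [one_smul, op_one, op_zero, zero_smul, add_zero] at e2
    exact Gam.ext h (by simpa using e2) a1.symm a2 (a3.trans h)

theorem gam_not_semisimple [Nontrivial B] : ¬ IsSemisimpleRing (Gam K B) := by
  refine not_semisimple_of' (⟨0, 0, 0, 1, 0⟩ : Gam K B)
    (fun h => one_ne_zero (congrArg Gam.b21 h)) fun a => ?_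
  apply Gam.ext <;> simp

end W881.GS
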