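/-
Vanishing of `Ext` in short exact sequences of modules, restriction of scalars along surjections.
-/
import Pool.Agent.W450.RigExt

namespace W881.GS

open CategoryTheory CategoryTheory.Abelian W450.Rig

universe u

section Basic

variable {R : Type u} [Ring R]

/-- `Ext^n(M, N) = 0`. -/
def EV (R : Type u) [Ring R] (M N : Type u) [AddCommGroup M] [AddCommGroup N] [Module R M]
    [Module R N] (n : ℕ) : Prop :=
  Subsingleton (Ext (ModuleCat.of R M) (ModuleCat.of R N) n)

variable {M P N W : Type u} [AddCommGroup M] [AddCommGroup P] [AddCommGroup N] [AddCommGroup W]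
  [Module R M] [Module R P] [Module R N] [Module R W]

theorem ev_mid (i : N →ₗ[R] P) (p : P →ₗ[R] M) (hex : Function.Exact i p)
    (hi : Function.Injective i) (hp : Function.Surjective p) {n : ℕ}
    (hN : EV R N W n) (hM : EV R M W n) : EV R P W n := by
  refine subsingleton_of_forall_eq 0 fun x => ?_
  have hS := sc_exact i p hex hi hp
  obtain ⟨y, hy⟩ := Ext.contravariant_sequence_exact₂ (S := sc i p hex) hS
    (ModuleCat.of R W) (n := n) x (@Subsingleton.elim _ hN _ _)
  have h0 : y = 0 := @Subsingleton.elim _ hM y 0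
  rw [← hy, h0, Ext.comp_zero]
  rfl

theorem ev_right (i : N →ₗ[R] P) (p : P →ₗ[R] M) (hex : Function.Exact i p)
    (hi : Function.Injective i) (hp : Function.Surjective p) {n : ℕ}
    (hN : EV R N W n) (hP : EV R P W (n + 1)) : EV R M W (n + 1) := by
  refine subsingleton_of_forall_eq 0 fun x => ?_
  have hS := sc_exact i p hex hi hp
  obtain ⟨y, hy⟩ := Ext.contravariant_sequence_exact₃ (S := sc i p hex) hS
    (ModuleCat.of R W) (n₁ := n + 1) x (@Subsingleton.elim _ hP _ _) (n₀ := n) (add_comm 1 n)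
  have h0 : y = 0 := @Subsingleton.elim _ hN y 0
  rw [← hy, h0, Ext.comp_zero]
  rfl

theorem ev_left (i : N →ₗ[R] P) (p : P →ₗ[R] M) (hex : Function.Exact i p)
    (hi : Function.Injective i) (hp : Function.Surjective p) {n : ℕ}
    (hP : EV R P W n) (hM : EV R M W (n + 1)) : EV R N W n := by
  refine subsingleton_of_forall_eq 0 fun x => ?_
  have hS := sc_exact i p hex hi hp
  obtain ⟨y, hy⟩ := Ext.contravariant_sequence_exact₁ (S := sc i p hex) hS
    (ModuleCat.of R W) x (n₁ := n + 1) (add_comm 1 n) (@Subsingleton.elim _ hM _ _)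
  have h0 : y = 0 := @Subsingleton.elim _ hP y 0
  rw [← hy, h0, Ext.comp_zero]
  rfl

theorem ev_zero_iff : EV R M W 0 ↔ ∀ f : M →ₗ[R] W, f = 0 := by
  constructor
  · intro h f
    have h1 : Ext.addEquiv₀.symm (ModuleCat.ofHom f) =
      Ext.addEquiv₀.symm (0 : ModuleCat.of R M ⟶ ModuleCat.of R W) := @Subsingleton.elim _ h _ _
    have h2 := Ext.addEquiv₀.symm.injective h1
    exact congrArg ModuleCat.Hom.hom h2
  · intro h
    refine subsingleton_of_forall_eq 0 fun x => ?_
    obtain ⟨g, rfl⟩ := Ext.addEquiv₀.symm.surjective x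
    have : g = 0 := by
      apply ModuleCat.hom_ext
      exact h g.hom
    rw [this, map_zero]

theorem ev_proj [Module.Projective R P] (n : ℕ) : EV R P W (n + 1) := by
  have : Projective (ModuleCat.of R P) := inferInstance
  exact subsingleton_of_forall_eq 0 fun x => Ext.eq_zero_of_projective (P := ModuleCat.of R P) x

theorem ev_of_equiv (e : M ≃ₗ[R] N) {n : ℕ} (h : EV R M W n) : EV R N W n := by
  refine subsingleton_of_forall_eq 0 fun x => ?_
  have hx : x = (Ext.mk₀ (e.symm.toModuleIso.hom)).comp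
      ((Ext.mk₀ (e.toModuleIso.hom)).comp x (zero_add n)) (zero_add n) := by
    rw [Ext.mk₀_comp_mk₀_assoc]
    have : e.symm.toModuleIso.hom ≫ e.toModuleIso.hom = 𝟙 (ModuleCat.of R N) := by
      apply ModuleCat.hom_ext
      ext y
      simp
    rw [this, Ext.mk₀_id_comp]
  rw [hx, (@Subsingleton.elim _ h ((Ext.mk₀ (e.toModuleIso.hom)).comp x (zero_add n)) 0),
    Ext.comp_zero]

theorem ev_prod {n : ℕ} (hM : EV R M W n) (hN : EV R N W n) : EV R (M × N) W n := by
  refine ev_mid (LinearMap.inl R M N) (LinearMap.snd R M N) ?_ LinearMap.inl_injective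
    LinearMap.snd_surjective hM hN
  exact LinearMap.exact_iff.2 (by rw [LinearMap.range_inl])

theorem ev_subsingleton [Subsingleton M] (n : ℕ) : EV R M W n := by
  have h0 : EV R M W 0 := ev_zero_iff.2 fun f => by
    ext x
    rw [Subsingleton.elim x 0, map_zero, map_zero]
  cases n with
  | zero => exact h0
  | succ n => exact ev_proj n

/-- extension of homomorphisms out of a submodule from the vanishing of the first `Ext` -/
theorem extend_of_ev_one (i : N →ₗ[R] P) (p : P →ₗ[R] M) (hex : Function.Exact i p)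
    (hi : Function.Injective i) (hp : Function.Surjective p) (hM : EV R M W 1)
    (g : N →ₗ[R] W) : ∃ g' : P →ₗ[R] W, g' ∘ₗ i = g := by
  have hS := sc_exact i p hex hi hp
  obtain ⟨y, hy⟩ := Ext.contravariant_sequence_exact₁ (S := sc i p hex) hS
    (ModuleCat.of R W) (Ext.addEquiv₀.symm (ModuleCat.ofHom g)) (n₁ := 1) (add_comm 1 0)
    (@Subsingleton.elim _ hM _ _)
  obtain ⟨g', rfl⟩ := Ext.addEquiv₀.symm.surjective y
  refine ⟨g'.hom, ?_⟩
  have e2 : (Ext.mk₀ (sc i p hex).f).comp
        (Ext.mk₀ (Y := ModuleCat.of R W) (X := (sc i p hex).X₂) g')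
        (add_zero 0) = (Ext.addEquiv₀.symm ((sc i p hex).f ≫ g') :
      Ext (sc i p hex).X₁ (ModuleCat.of R W) 0) :=
    Ext.mk₀_comp_mk₀ (sc i p hex).f (Z := ModuleCat.of R W) g'
  have h3 := Ext.addEquiv₀.symm.injective (e2.symm.trans hy)
  exact congrArg ModuleCat.Hom.hom h3

theorem ev_one_of_extend (i : N →ₗ[R] P) (p : P →ₗ[R] M) (hex : Function.Exact i p)
    (hi : Function.Injective i) (hp : Function.Surjective p) (hP : EV R P W 1)
    (h : ∀ g : N →ₗ[R] W, ∃ g' : P →ₗ[R] W, g' ∘ₗ i = g) : EV R M W 1 := by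
  refine subsingleton_of_forall_eq 0 fun x => ?_
  have hS := sc_exact i p hex hi hp
  obtain ⟨y, hy⟩ := Ext.contravariant_sequence_exact₃ (S := sc i p hex) hS
    (ModuleCat.of R W) (n₁ := 1) x (@Subsingleton.elim _ hP _ _) (n₀ := 0) (add_comm 1 0)
  obtain ⟨g, rfl⟩ := Ext.addEquiv₀.symm.surjective y
  obtain ⟨g', hg'⟩ := h g.hom
  have e1 : g = (sc i p hex).f ≫ ModuleCat.ofHom g' := by
    ext x
    exact (LinearMap.congr_fun hg' x).symm
  have e2 : (Ext.addEquiv₀.symm ((sc i p hex).f ≫ ModuleCat.ofHom g') :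
      Ext (sc i p hex).X₁ (ModuleCat.of R W) 0) =
      (Ext.mk₀ (sc i p hex).f).comp
        (Ext.mk₀ (Y := ModuleCat.of R W) (X := (sc i p hex).X₂) (ModuleCat.ofHom g'))
        (add_zero 0) :=
    (Ext.mk₀_comp_mk₀ (sc i p hex).f
      (Z := ModuleCat.of R W) (ModuleCat.ofHom g')).symm
  rw [← hy, e1, e2, hS.extClass_comp_assoc]
  rfl

end Basic

section Restrict

variable {S A : Type u} [Ring S] [Ring A] (ρ : S →+* A)

/-- Restriction of scalars along `ρ`. -/
@[nolint unusedArguments]
def Rs {S A : Type u} [Ring S] [Ring A] (_ : S →+* A) (Y : Type u) : Type u := Y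

variable (Y : Type u) [AddCommGroup Y] [Module A Y]

instance : AddCommGroup (Rs ρ Y) := inferInstanceAs (AddCommGroup Y)

instance : Module S (Rs ρ Y) := Module.compHom Y ρ

variable {Y}

theorem Rs.smul_def (s : S) (y : Y) : (s • (show Rs ρ Y from y)) = (show Rs ρ Y from ρ s • y) :=
  rfl

variable {X : Type u} [AddCommGroup X] [Module A X]

/-- Restriction of scalars on morphisms. -/
def Rs.map (f : X →ₗ[A] Y) : Rs ρ X →ₗ[S] Rs ρ Y where
  toFun := f
  map_add' := f.map_add
  map_smul' s x := f.map_smul (ρ s) x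

variable {ρ}

/-- Morphisms of restricted modules are morphisms. -/
def Rs.unmap (hρ : Function.Surjective ρ) (f : Rs ρ X →ₗ[S] Rs ρ Y) : X →ₗ[A] Y where
  toFun := f
  map_add' := f.map_add
  map_smul' a x := by
    obtain ⟨s, rfl⟩ := hρ a
    exact f.map_smul s x

variable (ρ)

/-- `Rs` of a submodule sequence is exact -/
theorem Rs.exact {N P M : Type u} [AddCommGroup N] [AddCommGroup P] [AddCommGroup M]
    [Module A N] [Module A P] [Module A M] (i : N →ₗ[A] P) (p : P →ₗ[A] M)
    (h : Function.Exact i p) : Function.Exact (Rs.map ρ i) (Rs.map ρ p) := h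

theorem ev_fin (W : Type u) [AddCommGroup W] [Module S W] {n : ℕ}
    (h : EV S (Rs ρ A) W n) (k : ℕ) : EV S (Rs ρ (Fin k → A)) W n := by
  induction k with
  | zero =>
    have : Subsingleton (Rs ρ (Fin 0 → A)) := inferInstanceAs (Subsingleton (Fin 0 → A))
    exact ev_subsingleton n
  | succ k ih =>
    let e : (A × (Fin k → A)) ≃ₗ[A] (Fin (k + 1) → A) :=
      { toFun := fun x => Fin.cons x.1 x.2
        invFun := fun x => (x 0, fun i => x i.succ)
        map_add' := fun x y => by
          funext i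
          refine Fin.cases ?_ (fun j => ?_) i <;> simp
        map_smul' := fun a x => by
          funext i
          refine Fin.cases ?_ (fun j => ?_) i <;> simp
        left_inv := fun x => by simp
        right_inv := fun x => by
          funext i
          refine Fin.cases ?_ (fun j => ?_) i <;> simp }
    let i : A →ₗ[A] (Fin (k + 1) → A) := e.toLinearMap ∘ₗ LinearMap.inl A A (Fin k → A)
    let p : (Fin (k + 1) → A) →ₗ[A] (Fin k → A) :=
      LinearMap.snd A A (Fin k → A) ∘ₗ e.symm.toLinearMap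
    refine ev_mid (Rs.map ρ i) (Rs.map ρ p) (Rs.exact ρ i p ?_) ?_ ?_ h ih
    · rw [LinearMap.exact_iff]
      ext x
      constructor
      · intro hx
        refine ⟨(e.symm x).1, ?_⟩
        have hx' : (e.symm x).2 = 0 := hx
        change e ((e.symm x).1, 0) = x
        rw [← hx', Prod.mk.eta, LinearEquiv.apply_symm_apply]
      · rintro ⟨a, rfl⟩
        change (e.symm (e (a, 0))).2 = 0
        rw [LinearEquiv.symm_apply_apply]
    · have hinj : Function.Injective i := fun a b hab =>
        LinearMap.inl_injective (e.injective hab)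
      exact hinj
    · have hsur : Function.Surjective p := fun y => ⟨e (0, y), by
        change (e.symm (e (0, y))).2 = y
        rw [LinearEquiv.symm_apply_apply]⟩
      exact hsur

/-- **Transfer.** -/
theorem ev_transfer [IsNoetherianRing A] (hρ : Function.Surjective ρ) (Y : Type u)
    [AddCommGroup Y] [Module A Y] (hA : ∀ n, EV S (Rs ρ A) (Rs ρ Y) (n + 1)) (n : ℕ) :
    ∀ (X : Type u) [AddCommGroup X] [Module A X] [Module.Finite A X],
      EV A X Y (n + 1) → EV S (Rs ρ X) (Rs ρ Y) (n + 1) := by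
  induction n with
  | zero =>
    intro X _ _ _ hX
    obtain ⟨k, p, hp⟩ := Module.Finite.exists_fin' A X
    have hex : Function.Exact (LinearMap.ker p).subtype p := LinearMap.exact_subtype_ker_map p
    refine ev_one_of_extend (Rs.map ρ (LinearMap.ker p).subtype) (Rs.map ρ p)
      (Rs.exact ρ _ _ hex) (Subtype.val_injective) hp (ev_fin ρ _ (hA 0) k) fun g => ?_
    obtain ⟨g', hg'⟩ := extend_of_ev_one (LinearMap.ker p).subtype p hex
      (Subtype.val_injective) hp hX (Rs.unmap hρ g)
    refine ⟨Rs.map ρ g', ?_⟩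
    refine LinearMap.ext fun x => ?_
    exact LinearMap.congr_fun hg' x
  | succ n ih =>
    intro X _ _ _ hX
    obtain ⟨k, p, hp⟩ := Module.Finite.exists_fin' A X
    have hex : Function.Exact (LinearMap.ker p).subtype p := LinearMap.exact_subtype_ker_map p
    have h1 : EV A (LinearMap.ker p) Y (n + 1) :=
      ev_left (LinearMap.ker p).subtype p hex (Subtype.val_injective) hp (ev_proj n) hX
    exact ev_right (Rs.map ρ (LinearMap.ker p).subtype) (Rs.map ρ p)
      (Rs.exact ρ _ _ hex) (Subtype.val_injective) hp (ih _ h1) (ev_fin ρ _ (hA (n + 1)) k)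

end Restrict

end W881.GS
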