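/-
Right ideals generated by idempotents; vanishing of `Ext` along exact sequences.
-/
import Pool.Agent.W881.GamExt

namespace W881.GS

open MulOpposite CategoryTheory CategoryTheory.Abelian W450.Rig

universe u

section Rid

variable {R : Type u} [Ring R]

/-- The right ideal of the `x` with `e * x = x`. -/
def rid (e : R) : Submodule Rᵐᵒᵖ R where
  carrier := {x | e * x = x}
  add_mem' {x y} hx hy := by
    change e * (x + y) = x + y
    rw [mul_add, show e * x = x from hx, show e * y = y from hy]
  zero_mem' := mul_zero e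
  smul_mem' c x hx := by
    change e * (x * c.unop) = x * c.unop
    rw [← mul_assoc, show e * x = x from hx]

theorem mem_rid {e x : R} : x ∈ rid e ↔ e * x = x := Iff.rfl

theorem rid_projective {e : R} (he : e * e = e) : Module.Projective Rᵐᵒᵖ (rid e) := by
  refine Module.Projective.of_split (M := Rᵐᵒᵖ)
    { toFun := fun x => op x.1, map_add' := fun x y => rfl, map_smul' := fun c x => ?_ }
    { toFun := fun y => ⟨e * y.unop, ?_⟩, map_add' := fun x y => ?_, map_smul' := fun c x => ?_ }
    (LinearMap.ext fun x => ?_)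
  · change op (x.1 * c.unop) = c * op x.1
    rw [op_mul, op_unop]
  · rw [mem_rid, ← mul_assoc, he]
  · apply Subtype.ext
    change e * (x.unop + y.unop) = e * x.unop + e * y.unop
    rw [mul_add]
  · apply Subtype.ext
    change e * (x.unop * c.unop) = (e * x.unop) * c.unop
    rw [mul_assoc]
  · apply Subtype.ext
    exact x.2

theorem ev_rid {e : R} (he : e * e = e) (W : Type u) [AddCommGroup W] [Module Rᵐᵒᵖ W] (n : ℕ) :
    EV Rᵐᵒᵖ (rid e) W (n + 1) :=
  have := rid_projective he
  ev_proj n

theorem ev_rid_zero {e : R} (he : e * e = e) (W : Type u) [AddCommGroup W] [Module Rᵐᵒᵖ W]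
    (hW : ∀ w : W, op e • w = 0) (n : ℕ) : EV Rᵐᵒᵖ (rid e) W n := by
  cases n with
  | succ n => exact ev_rid he W n
  | zero =>
    refine ev_zero_iff.2 fun f => LinearMap.ext fun x => ?_
    have hx : x = op x.1 • (⟨e, he⟩ : rid e) := Subtype.ext x.2.symm
    have h2 : f (⟨e, he⟩ : rid e) = 0 := by
      have h3 : (⟨e, he⟩ : rid e) = op e • (⟨e, he⟩ : rid e) := Subtype.ext he.symm
      rw [h3, map_smul, hW]
    rw [hx, map_smul, h2, smul_zero, LinearMap.zero_apply]

end Rid

section Seq

variable {R : Type u} [Ring R] {M P N W : Type u} [AddCommGroup M] [AddCommGroup P]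
  [AddCommGroup N] [AddCommGroup W] [Module R M] [Module R P] [Module R N] [Module R W]

theorem ev_quot (p : P →ₗ[R] M) (hp : Function.Surjective p) (h : EV R P W 0) : EV R M W 0 := by
  refine ev_zero_iff.2 fun f => ?_
  have h1 := ev_zero_iff.1 h (f ∘ₗ p)
  refine LinearMap.ext fun x => ?_
  obtain ⟨y, rfl⟩ := hp x
  exact LinearMap.congr_fun h1 y

theorem ev_surj (p : P →ₗ[R] M) (hp : Function.Surjective p) {n : ℕ}
    (hN : EV R (LinearMap.ker p) W n) (hP : EV R P W (n + 1)) : EV R M W (n + 1) :=
  ev_right (LinearMap.ker p).subtype p (LinearMap.exact_subtype_ker_map p)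
    (Subtype.val_injective) hp hN hP

theorem ev_range (f : P →ₗ[R] M) (h1 : ∀ n, EV R (LinearMap.ker f) W n)
    (h2 : ∀ n, EV R P W n) (n : ℕ) : EV R (LinearMap.range f) W n := by
  have hs : Function.Surjective f.rangeRestrict := LinearMap.surjective_rangeRestrict f
  cases n with
  | zero => exact ev_quot f.rangeRestrict hs (h2 0)
  | succ n =>
    refine ev_surj f.rangeRestrict hs ?_ (h2 (n + 1))
    rw [LinearMap.ker_rangeRestrict]
    exact h1 n

end Seq

end W881.GS
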