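/-
The modules `LM Z` over `Gam K (T2 A)`.
-/
import Pool.Agent.W881.GamT2
import Pool.Agent.W881.GamRid

namespace W881.GS

open MulOpposite CategoryTheory CategoryTheory.Abelian W450.Rig

universe u

variable {K A : Type u} [Field K] [Ring A] [Algebra K A]

/-- The projection of the opposite rings. -/
abbrev rho (K A : Type u) [Field K] [Ring A] [Algebra K A] : (Gam K (T2 A))ᵐᵒᵖ →+* Aᵐᵒᵖ :=
  RingHom.op (sig K A)

theorem rho_op (g : Gam K (T2 A)) : rho K A (op g) = op g.b22.x := rfl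

theorem rho_apply (s : (Gam K (T2 A))ᵐᵒᵖ) : rho K A s = op s.unop.b22.x := rfl

theorem rho_surjective : Function.Surjective (rho K A) := fun a =>
  ⟨op (mkE K 0 0 ⟨a.unop, 0, 0⟩), rfl⟩

/-- The module `Z × Z`. -/
@[ext] structure LM (K A : Type u) [Field K] [Ring A] [Algebra K A] (Z : Type u) : Type u where
  p : Z
  q : Z

section LMdefs

variable (Z : Type u) [AddCommGroup Z]

instance : Zero (LM K A Z) := ⟨⟨0, 0⟩⟩
instance : Add (LM K A Z) := ⟨fun g h => ⟨g.p + h.p, g.q + h.q⟩⟩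
instance : Neg (LM K A Z) := ⟨fun g => ⟨-g.p, -g.q⟩⟩
instance : Sub (LM K A Z) := ⟨fun g h => ⟨g.p - h.p, g.q - h.q⟩⟩

variable {Z}

@[simp] theorem LM.zero_p : (0 : LM K A Z).p = 0 := rfl
@[simp] theorem LM.zero_q : (0 : LM K A Z).q = 0 := rfl
@[simp] theorem LM.add_p (g h : LM K A Z) : (g + h).p = g.p + h.p := rfl
@[simp] theorem LM.add_q (g h : LM K A Z) : (g + h).q = g.q + h.q := rfl
@[simp] theorem LM.neg_p (g : LM K A Z) : (-g).p = -g.p := rfl
@[simp] theorem LM.neg_q (g : LM K A Z) : (-g).q = -g.q := rfl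
@[simp] theorem LM.sub_p (g h : LM K A Z) : (g - h).p = g.p - h.p := rfl
@[simp] theorem LM.sub_q (g h : LM K A Z) : (g - h).q = g.q - h.q := rfl

instance : AddCommGroup (LM K A Z) where
  add_assoc g h k := by ext <;> simp [add_assoc]
  zero_add g := by ext <;> simp
  add_zero g := by ext <;> simp
  add_comm g h := by ext <;> simp [add_comm]
  neg_add_cancel g := by ext <;> simp
  sub_eq_add_neg g h := by ext <;> simp [sub_eq_add_neg]
  nsmul := nsmulRec
  zsmul := zsmulRec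

end LMdefs

section LM

variable {Z : Type u} [AddCommGroup Z] [Module Aᵐᵒᵖ Z]

instance : SMul (Gam K (T2 A))ᵐᵒᵖ (LM K A Z) :=
  ⟨fun s m => ⟨op s.unop.b11.z • m.p + op s.unop.b21.z • m.q, op s.unop.b22.z • m.q⟩⟩

@[simp] theorem LM.smul_p (s : (Gam K (T2 A))ᵐᵒᵖ) (m : LM K A Z) :
    (s • m).p = op s.unop.b11.z • m.p + op s.unop.b21.z • m.q := rfl

@[simp] theorem LM.smul_q (s : (Gam K (T2 A))ᵐᵒᵖ) (m : LM K A Z) :
    (s • m).q = op s.unop.b22.z • m.q := rfl

instance : Module (Gam K (T2 A))ᵐᵒᵖ (LM K A Z) where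
  one_smul m := by
    ext <;> simp
  mul_smul s t m := by
    ext
    · simp only [LM.smul_p, LM.smul_q, unop_mul, Gam.mul_b11, Gam.mul_b21, T2.mul_z, T2.add_z,
        op_mul, MulOpposite.op_add, add_smul, mul_smul, smul_add]
      abel
    · simp only [LM.smul_q, unop_mul, Gam.mul_b22, T2.mul_z, op_mul, mul_smul]
  smul_zero s := by
    ext <;> simp
  smul_add s m n := by
    ext
    · simp only [LM.smul_p, LM.add_p, LM.add_q, smul_add]
      abel
    · simp only [LM.smul_q, LM.add_q, smul_add]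
  add_smul s t m := by
    ext
    · simp only [LM.smul_p, LM.add_p, MulOpposite.unop_add, Gam.add_b11, Gam.add_b21, T2.add_z,
        MulOpposite.op_add, add_smul]
      abel
    · simp only [LM.smul_q, LM.add_q, MulOpposite.unop_add, Gam.add_b22, T2.add_z,
        MulOpposite.op_add, add_smul]
  zero_smul m := by
    ext <;> simp

variable {Z' Z'' : Type u} [AddCommGroup Z'] [Module Aᵐᵒᵖ Z'] [AddCommGroup Z'']
  [Module Aᵐᵒᵖ Z'']

/-- functoriality -/
def LM.map (f : Z →ₗ[Aᵐᵒᵖ] Z') : LM K A Z →ₗ[(Gam K (T2 A))ᵐᵒᵖ] LM K A Z' where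
  toFun m := ⟨f m.p, f m.q⟩
  map_add' m n := by ext <;> simp
  map_smul' s m := by ext <;> simp

theorem LM.exact (i : Z →ₗ[Aᵐᵒᵖ] Z') (p : Z' →ₗ[Aᵐᵒᵖ] Z'') (h : Function.Exact i p) :
    Function.Exact (LM.map (K := K) i) (LM.map (K := K) p) := by
  rintro ⟨x, y⟩
  constructor
  · intro hx
    obtain ⟨a, ha⟩ := (h x).1 (congrArg LM.p hx)
    obtain ⟨b, hb⟩ := (h y).1 (congrArg LM.q hx)
    exact ⟨⟨a, b⟩, LM.ext ha hb⟩
  · rintro ⟨⟨a, b⟩, hab⟩
    have h1 : i a = x := congrArg LM.p hab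
    have h2 : i b = y := congrArg LM.q hab
    refine LM.ext ?_ ?_
    · change p x = 0
      rw [← h1]; exact h.apply_apply_eq_zero a
    · change p y = 0
      rw [← h2]; exact h.apply_apply_eq_zero b

theorem LM.map_injective (i : Z →ₗ[Aᵐᵒᵖ] Z') (h : Function.Injective i) :
    Function.Injective (LM.map (K := K) i) := by
  rintro ⟨a, b⟩ ⟨c, d⟩ hab
  exact LM.ext (h (congrArg LM.p hab)) (h (congrArg LM.q hab))

theorem LM.map_surjective (i : Z →ₗ[Aᵐᵒᵖ] Z') (h : Function.Surjective i) :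
    Function.Surjective (LM.map (K := K) i) := by
  rintro ⟨a, b⟩
  obtain ⟨c, hc⟩ := h a
  obtain ⟨d, hd⟩ := h b
  exact ⟨⟨c, d⟩, LM.ext hc hd⟩

theorem fb_idem : fb K A * fb K A = fb K A := by
  apply Gam.ext <;> simp [fb]
  apply T2.ext <;> simp

theorem eb_idem : eb K A * eb K A = eb K A := by
  apply Gam.ext <;> simp [eb]
  apply T2.ext <;> simp

theorem fa_idem : fa K A * fa K A = fa K A := by
  apply Gam.ext <;> simp [fa]
  apply T2.ext <;> simp

/-- `LM` of the regular module is projective. -/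
def lmEquiv : rid (fb K A) ≃ₗ[(Gam K (T2 A))ᵐᵒᵖ] LM K A Aᵐᵒᵖ where
  toFun x := ⟨op x.1.b21.z, op x.1.b22.z⟩
  map_add' x y := rfl
  map_smul' s x := by
    apply LM.ext
    · change op ((x.1 * s.unop).b21.z) = op s.unop.b11.z * op x.1.b21.z +
        op s.unop.b21.z * op x.1.b22.z
      rw [Gam.mul_b21, T2.add_z, T2.mul_z, T2.mul_z, MulOpposite.op_add, op_mul, op_mul]
    · rfl
  invFun m := ⟨mkE K 0 ⟨0, 0, m.p.unop⟩ ⟨0, 0, m.q.unop⟩, by
    rw [mem_rid]
    apply Gam.ext <;> simp [fb] <;> apply T2.ext <;> simp⟩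
  left_inv x := by
    apply Subtype.ext
    obtain ⟨y, hx⟩ := x
    change fb K A * y = y at hx
    have h1 := congrArg Gam.b11 hx
    have h2 := congrArg Gam.d11 hx
    have h3 := congrArg Gam.d12 hx
    have h4 := congrArg Gam.b21 hx
    have h5 := congrArg Gam.b22 hx
    simp only [fb, Gam.mul_b11, mkE_b11, zero_mul, Gam.mul_d11, mkE_d11, zero_smul, smul_zero,
      mkE_d12, add_zero, Gam.mul_d12, Gam.mul_b21, mkE_b21, mkE_b22, zero_add, Gam.mul_b22] at h1 h2 h3 h4 h5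
    apply Gam.ext
    · exact h1
    · exact h2
    · exact h3
    · rw [mkE_b21, ← h4]
      apply T2.ext <;> simp
    · rw [mkE_b22, ← h5]
      apply T2.ext <;> simp
  right_inv p := rfl

theorem ev_lm_reg (W : Type u) [AddCommGroup W] [Module (Gam K (T2 A))ᵐᵒᵖ W] (n : ℕ) :
    EV (Gam K (T2 A))ᵐᵒᵖ (LM K A Aᵐᵒᵖ) W (n + 1) :=
  ev_of_equiv lmEquiv (ev_rid fb_idem W n)

theorem ev_lm_fin (W : Type u) [AddCommGroup W] [Module (Gam K (T2 A))ᵐᵒᵖ W] (n k : ℕ) :
    EV (Gam K (T2 A))ᵐᵒᵖ (LM K A (Fin k → Aᵐᵒᵖ)) W (n + 1) := by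
  induction k with
  | zero =>
    have : Subsingleton (LM K A (Fin 0 → Aᵐᵒᵖ)) :=
      ⟨fun x y => LM.ext (Subsingleton.elim _ _) (Subsingleton.elim _ _)⟩
    exact ev_subsingleton (n + 1)
  | succ k ih =>
    let e : (Aᵐᵒᵖ × (Fin k → Aᵐᵒᵖ)) ≃ₗ[Aᵐᵒᵖ] (Fin (k + 1) → Aᵐᵒᵖ) :=
      { toFun := fun x => Fin.cons x.1 x.2
        invFun := fun x => (x 0, fun i => x i.succ)
        map_add' := fun x y => by
          funext i
          refine Fin.cases ?_ (fun j => ?_) i <;> simp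
        map_smul' := fun a x => by
          funext i
          refine Fin.cases ?_ (fun j => ?_) i <;> simp
        left_inv := fun x => by simp
        right_inv := fun x => by
          funext i
          refine Fin.cases ?_ (fun j => ?_) i <;> simp }
    let i : Aᵐᵒᵖ →ₗ[Aᵐᵒᵖ] (Fin (k + 1) → Aᵐᵒᵖ) :=
      e.toLinearMap ∘ₗ LinearMap.inl Aᵐᵒᵖ Aᵐᵒᵖ (Fin k → Aᵐᵒᵖ)
    let p : (Fin (k + 1) → Aᵐᵒᵖ) →ₗ[Aᵐᵒᵖ] (Fin k → Aᵐᵒᵖ) :=
      LinearMap.snd Aᵐᵒᵖ Aᵐᵒᵖ (Fin k → Aᵐᵒᵖ) ∘ₗ e.symm.toLinearMap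
    have hinj : Function.Injective i := fun a b hab =>
      LinearMap.inl_injective (e.injective hab)
    have hsur : Function.Surjective p := fun y => ⟨e (0, y), by
      change (e.symm (e (0, y))).2 = y
      rw [LinearEquiv.symm_apply_apply]⟩
    refine ev_mid (LM.map i) (LM.map p) (LM.exact i p ?_) (LM.map_injective i hinj)
      (LM.map_surjective p hsur) (ev_lm_reg W n) ih
    rw [LinearMap.exact_iff]
    ext x
    constructor
    · intro hx
      refine ⟨(e.symm x).1, ?_⟩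
      have hx' : (e.symm x).2 = 0 := hx
      change e ((e.symm x).1, 0) = x
      rw [← hx', Prod.mk.eta, LinearEquiv.apply_symm_apply]
    · rintro ⟨a, rfl⟩
      change (e.symm (e (a, 0))).2 = 0
      rw [LinearEquiv.symm_apply_apply]

theorem ev_lm [IsNoetherianRing Aᵐᵒᵖ] (Y : Type u) [AddCommGroup Y] [Module Aᵐᵒᵖ Y] (n : ℕ) :
    ∀ (Z : Type u) [AddCommGroup Z] [Module Aᵐᵒᵖ Z] [Module.Finite Aᵐᵒᵖ Z],
      EV (Gam K (T2 A))ᵐᵒᵖ (LM K A Z) (Rs (rho K A) Y) n := by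
  induction n with
  | zero =>
    intro Z _ _ _
    refine ev_zero_iff.2 fun f => LinearMap.ext fun x => ?_
    have h1 : x = op (eb K A + fb K A) • x := by
      ext <;> simp [eb, fb]
    have h2 : ∀ w : Rs (rho K A) Y, op (eb K A + fb K A) • w = 0 := fun w => by
      change (rho K A (op (eb K A + fb K A))) • (show Y from w) = (0 : Y)
      rw [rho_op]
      have : (eb K A + fb K A).b22.x = 0 := by simp [eb, fb]
      rw [this, op_zero, zero_smul]
    rw [h1, map_smul, h2, LinearMap.zero_apply]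
  | succ n ih =>
    intro Z _ _ _
    obtain ⟨k, p, hp⟩ := Module.Finite.exists_fin' Aᵐᵒᵖ Z
    have hex : Function.Exact (LinearMap.ker p).subtype p := LinearMap.exact_subtype_ker_map p
    exact ev_right (LM.map (LinearMap.ker p).subtype) (LM.map p)
      (LM.exact _ _ hex) (LM.map_injective _ Subtype.val_injective) (LM.map_surjective p hp)
      (ih _) (ev_lm_fin _ n k)

end LM

end W881.GS
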