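/-
Vanishing of `Ext^n` from the regular module of `A` (restricted to `Gam K (T2 A)`).
-/
import Pool.Agent.W881.GamLM

namespace W881.GS

open MulOpposite CategoryTheory CategoryTheory.Abelian W450.Rig

universe u

section LeftMul

variable {R : Type u} [Ring R]

/-- Left multiplication between right ideals. -/
def lmul (c e f : R) (h : ∀ x, e * x = x → f * (c * x) = c * x) : rid e →ₗ[Rᵐᵒᵖ] rid f where
  toFun x := ⟨c * x.1, h x.1 x.2⟩
  map_add' x y := Subtype.ext (mul_add c x.1 y.1)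
  map_smul' s x := Subtype.ext (mul_assoc c x.1 s.unop).symm

end LeftMul

variable {K A : Type u} [Field K] [Ring A] [Algebra K A]

/-- precomposition of a functional -/
def Du.pre {B C : Type u} [Ring B] [Algebra K B] [Ring C] [Algebra K C] (f : C →ₗ[K] B)
    (φ : Du K B) : Du K C := Du.mk ((show B →ₗ[K] K from φ) ∘ₗ f)

@[simp] theorem Du.pre_ev {B C : Type u} [Ring B] [Algebra K B] [Ring C] [Algebra K C]
    (f : C →ₗ[K] B) (φ : Du K B) (x : C) : (Du.pre f φ).ev x = φ.ev (f x) := rfl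

/-- `t ↦ (y, 0, 0)` -/
def ymap (K A : Type u) [Field K] [Ring A] [Algebra K A] : T2 A →ₗ[K] T2 A where
  toFun t := ⟨t.y, 0, 0⟩
  map_add' s t := by ext <;> simp
  map_smul' c t := by ext <;> simp

@[simp] theorem ymap_apply (t : T2 A) : ymap K A t = ⟨t.y, 0, 0⟩ := rfl

/-- `t ↦ z` -/
def zmap (K A : Type u) [Field K] [Ring A] [Algebra K A] : T2 A →ₗ[K] A where
  toFun t := t.z
  map_add' s t := rfl
  map_smul' c t := rfl

@[simp] theorem zmap_apply (t : T2 A) : zmap K A t = t.z := rfl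

/-- `z ↦ (0, 0, z)` -/
def zinc (K A : Type u) [Field K] [Ring A] [Algebra K A] : A →ₗ[K] T2 A where
  toFun t := ⟨0, 0, t⟩
  map_add' s t := by ext <;> simp
  map_smul' c t := by ext <;> simp

@[simp] theorem zinc_apply (t : A) : zinc K A t = ⟨0, 0, t⟩ := rfl

/-- the components of an element of `rid ea` -/
theorem mem_ea {x : Gam K (T2 A)} (hx : ea K A * x = x) :
    x.b11.z = 0 ∧ (∀ t : T2 A, x.d11.ev t = x.d11.ev ⟨t.x, 0, 0⟩) ∧
      (∀ t : T2 A, x.d12.ev t = x.d12.ev ⟨t.x, 0, 0⟩) ∧ x.b21 = 0 ∧ x.b22 = 0 := by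
  have h1 := congrArg (fun g => g.b11.z) hx
  have h2 := congrArg Gam.d11 hx
  have h3 := congrArg Gam.d12 hx
  have h4 := congrArg Gam.b21 hx
  have h5 := congrArg Gam.b22 hx
  simp only [ea, Gam.mul_b11, mkE_b11, Gam.mul_d11, mkE_d11, smul_zero, mkE_d12, add_zero,
    Gam.mul_d12, Gam.mul_b21, mkE_b21, mkE_b22, Gam.mul_b22, zero_mul, T2.mul_z] at h1 h2 h3 h4 h5
  refine ⟨h1.symm, fun t => ?_, fun t => ?_, h4.symm, h5.symm⟩
  · have := congrArg (fun φ => Du.ev φ t) h2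
    simp only [Du.ev_lsmul] at this
    rw [← this]
    congr 1
    ext <;> simp
  · have := congrArg (fun φ => Du.ev φ t) h3
    simp only [Du.ev_lsmul] at this
    rw [← this]
    congr 1
    ext <;> simp

theorem mem_eb {x : Gam K (T2 A)} (hx : eb K A * x = x) :
    x.b11.x = 0 ∧ x.b11.y = 0 ∧ (∀ t : T2 A, x.d11.ev t = x.d11.ev ⟨0, t.y, t.z⟩) ∧
      (∀ t : T2 A, x.d12.ev t = x.d12.ev ⟨0, t.y, t.z⟩) ∧ x.b21 = 0 ∧ x.b22 = 0 := by
  have h1 := congrArg (fun g => g.b11.x) hx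
  have h1' := congrArg (fun g => g.b11.y) hx
  have h2 := congrArg Gam.d11 hx
  have h3 := congrArg Gam.d12 hx
  have h4 := congrArg Gam.b21 hx
  have h5 := congrArg Gam.b22 hx
  simp only [eb, Gam.mul_b11, mkE_b11, Gam.mul_d11, mkE_d11, smul_zero, mkE_d12, add_zero,
    Gam.mul_d12, Gam.mul_b21, mkE_b21, mkE_b22, Gam.mul_b22, zero_mul, T2.mul_x, T2.mul_y]
    at h1 h1' h2 h3 h4 h5
  refine ⟨h1.symm, h1'.symm, fun t => ?_, fun t => ?_, h4.symm, h5.symm⟩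
  · have := congrArg (fun φ => Du.ev φ t) h2
    simp only [Du.ev_lsmul] at this
    rw [← this]
    congr 1
    ext <;> simp
  · have := congrArg (fun φ => Du.ev φ t) h3
    simp only [Du.ev_lsmul] at this
    rw [← this]
    congr 1
    ext <;> simp

theorem mem_fa {x : Gam K (T2 A)} (hx : fa K A * x = x) :
    x.b11 = 0 ∧ x.d11 = 0 ∧ x.d12 = 0 ∧ x.b21.z = 0 ∧ x.b22.z = 0 := by
  have h1 := congrArg Gam.b11 hx
  have h2 := congrArg Gam.d11 hx
  have h3 := congrArg Gam.d12 hx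
  have h4 := congrArg (fun g => g.b21.z) hx
  have h5 := congrArg (fun g => g.b22.z) hx
  simp only [fa, Gam.mul_b11, mkE_b11, Gam.mul_d11, mkE_d11, smul_zero, zero_smul, mkE_d12,
    add_zero, zero_add, T2.add_z,
    Gam.mul_d12, Gam.mul_b21, mkE_b21, mkE_b22, Gam.mul_b22, zero_mul, T2.mul_z]
    at h1 h2 h3 h4 h5
  exact ⟨h1.symm, h2.symm, h3.symm, h4.symm, h5.symm⟩

theorem mem_fb {x : Gam K (T2 A)} (hx : fb K A * x = x) :
    x.b11 = 0 ∧ x.d11 = 0 ∧ x.d12 = 0 ∧ x.b21.x = 0 ∧ x.b21.y = 0 ∧ x.b22.x = 0 ∧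
      x.b22.y = 0 := by
  have h1 := congrArg Gam.b11 hx
  have h2 := congrArg Gam.d11 hx
  have h3 := congrArg Gam.d12 hx
  have h4 := congrArg (fun g => g.b21.x) hx
  have h4' := congrArg (fun g => g.b21.y) hx
  have h5 := congrArg (fun g => g.b22.x) hx
  have h5' := congrArg (fun g => g.b22.y) hx
  simp only [fb, Gam.mul_b11, mkE_b11, Gam.mul_d11, mkE_d11, smul_zero, zero_smul, mkE_d12,
    add_zero, zero_add, T2.add_x, T2.add_y,
    Gam.mul_d12, Gam.mul_b21, mkE_b21, mkE_b22, Gam.mul_b22, zero_mul, T2.mul_x, T2.mul_y]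
    at h1 h2 h3 h4 h4' h5 h5'
  exact ⟨h1.symm, h2.symm, h3.symm, h4.symm, h4'.symm, h5.symm, h5'.symm⟩

/-- a product formula: the elements killed by right ideal conditions -/
theorem ea_fix {x : Gam K (T2 A)} (h1 : x.b11.z = 0)
    (h2 : ∀ t : T2 A, x.d11.ev t = x.d11.ev ⟨t.x, 0, 0⟩)
    (h3 : ∀ t : T2 A, x.d12.ev t = x.d12.ev ⟨t.x, 0, 0⟩) (h4 : x.b21 = 0) (h5 : x.b22 = 0) :
    ea K A * x = x := by
  apply Gam.ext
  · apply T2.ext <;> simp [ea, h1]
  · refine Du.ext fun t => ?_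
    simp only [ea, Gam.mul_d11, mkE_b11, mkE_d11, smul_zero, mkE_d12, add_zero, Du.ev_lsmul]
    rw [h2 t]
    congr 1
    ext <;> simp
  · refine Du.ext fun t => ?_
    simp only [ea, Gam.mul_d12, mkE_b11, smul_zero, mkE_d12, add_zero, Du.ev_lsmul]
    rw [h3 t]
    congr 1
    ext <;> simp
  · simp [ea, h4]
  · simp [ea, h5]

theorem eb_fix {x : Gam K (T2 A)} (h1 : x.b11.x = 0) (h1' : x.b11.y = 0)
    (h2 : ∀ t : T2 A, x.d11.ev t = x.d11.ev ⟨0, t.y, t.z⟩)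
    (h3 : ∀ t : T2 A, x.d12.ev t = x.d12.ev ⟨0, t.y, t.z⟩) (h4 : x.b21 = 0) (h5 : x.b22 = 0) :
    eb K A * x = x := by
  apply Gam.ext
  · apply T2.ext <;> simp [eb, h1, h1']
  · refine Du.ext fun t => ?_
    simp only [eb, Gam.mul_d11, mkE_b11, mkE_d11, smul_zero, mkE_d12, add_zero, Du.ev_lsmul]
    rw [h2 t]
    congr 1
    ext <;> simp
  · refine Du.ext fun t => ?_
    simp only [eb, Gam.mul_d12, mkE_b11, smul_zero, mkE_d12, add_zero, Du.ev_lsmul]
    rw [h3 t]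
    congr 1
    ext <;> simp
  · simp [eb, h4]
  · simp [eb, h5]

theorem fa_fix {x : Gam K (T2 A)} (h1 : x.b11 = 0) (h2 : x.d11 = 0) (h3 : x.d12 = 0)
    (h4 : x.b21.z = 0) (h5 : x.b22.z = 0) : fa K A * x = x := by
  apply Gam.ext
  · simp [fa, h1]
  · simp [fa, h2]
  · simp [fa, h3]
  · apply T2.ext <;> simp [fa, h4]
  · apply T2.ext <;> simp [fa, h5]

theorem fb_fix {x : Gam K (T2 A)} (h1 : x.b11 = 0) (h2 : x.d11 = 0) (h3 : x.d12 = 0)
    (h4 : x.b21.x = 0) (h4' : x.b21.y = 0) (h5 : x.b22.x = 0) (h5' : x.b22.y = 0) :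
    fb K A * x = x := by
  apply Gam.ext
  · simp [fb, h1]
  · simp [fb, h2]
  · simp [fb, h3]
  · apply T2.ext <;> simp [fb, h4, h4']
  · apply T2.ext <;> simp [fb, h5, h5']

end W881.GS
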