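/-
The projective start of a resolution of `A` over `Gam K (T2 A)` and vanishing of `Ext`.
-/
import Pool.Agent.W881.GamVan

namespace W881.GS

open MulOpposite CategoryTheory CategoryTheory.Abelian W450.Rig

universe u

variable {K A : Type u} [Field K] [Ring A] [Algebra K A]

/-- first component -/
def cU (K A : Type u) [Field K] [Ring A] [Algebra K A] :
    rid (eb K A) →ₗ[(Gam K (T2 A))ᵐᵒᵖ] rid (ea K A) :=
  lmul (uu K A) (eb K A) (ea K A) fun x _ => by
    rw [← mul_assoc]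
    congr 1
    apply Gam.ext <;> simp [ea, uu]
    apply T2.ext <;> simp

/-- second component -/
def cI (K A : Type u) [Field K] [Ring A] [Algebra K A] :
    rid (eb K A) →ₗ[(Gam K (T2 A))ᵐᵒᵖ] rid (fb K A) :=
  lmul (-ib K A) (eb K A) (fb K A) fun x _ => by
    rw [← mul_assoc]
    congr 1
    apply Gam.ext <;> simp [fb, ib]
    apply T2.ext <;> simp

/-- third component -/
def cJ (K A : Type u) [Field K] [Ring A] [Algebra K A] :
    rid (ea K A) →ₗ[(Gam K (T2 A))ᵐᵒᵖ] rid (fa K A) :=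
  lmul (ia K A) (ea K A) (fa K A) fun x _ => by
    rw [← mul_assoc]
    congr 1
    apply Gam.ext <;> simp [fa, ia]
    apply T2.ext <;> simp

/-- fourth component -/
def cW (K A : Type u) [Field K] [Ring A] [Algebra K A] :
    rid (fb K A) →ₗ[(Gam K (T2 A))ᵐᵒᵖ] rid (fa K A) :=
  lmul (ww K A) (fb K A) (fa K A) fun x _ => by
    rw [← mul_assoc]
    congr 1
    apply Gam.ext <;> simp [fa, ww]
    apply T2.ext <;> simp

/-- second differential -/
def del2 (K A : Type u) [Field K] [Ring A] [Algebra K A] :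
    rid (eb K A) →ₗ[(Gam K (T2 A))ᵐᵒᵖ] rid (ea K A) × rid (fb K A) :=
  (cU K A).prod (cI K A)

/-- first differential -/
def del1 (K A : Type u) [Field K] [Ring A] [Algebra K A] :
    (rid (ea K A) × rid (fb K A)) →ₗ[(Gam K (T2 A))ᵐᵒᵖ] rid (fa K A) :=
  (cJ K A).coprod (cW K A)

/-- augmentation -/
def del0 (K A : Type u) [Field K] [Ring A] [Algebra K A] :
    rid (fa K A) →ₗ[(Gam K (T2 A))ᵐᵒᵖ] Rs (rho K A) Aᵐᵒᵖ where
  toFun x := (show Aᵐᵒᵖ from op x.1.b22.x)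
  map_add' _ _ := rfl
  map_smul' _ _ := rfl

theorem del2_fst (x : rid (eb K A)) : ((del2 K A x).1 : Gam K (T2 A)) = uu K A * x.1 := rfl
theorem del2_snd (x : rid (eb K A)) : ((del2 K A x).2 : Gam K (T2 A)) = -ib K A * x.1 := rfl
theorem del1_val (x : rid (ea K A) × rid (fb K A)) :
    ((del1 K A x) : Gam K (T2 A)) = ia K A * x.1.1 + ww K A * x.2.1 := rfl
theorem del0_val (x : rid (fa K A)) : del0 K A x = (show Aᵐᵒᵖ from op x.1.b22.x) := rfl

theorem del0_surjective : Function.Surjective (del0 K A) := fun a =>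
  ⟨⟨mkE K 0 0 ⟨(show Aᵐᵒᵖ from a).unop, 0, 0⟩, fa_fix rfl rfl rfl rfl rfl⟩, rfl⟩

theorem del0_exact : LinearMap.ker (del0 K A) = LinearMap.range (del1 K A) := by
  ext x
  constructor
  · intro hx
    have h0 : x.1.b22.x = 0 := op_injective hx
    obtain ⟨h1, h2, h3, h4, h5⟩ := mem_fa x.2
    refine ⟨(⟨mkE K ⟨x.1.b21.x, x.1.b21.y, 0⟩ 0 0, ea_fix rfl (fun _ => rfl) (fun _ => rfl) rfl rfl⟩,
      ⟨mkE K 0 0 ⟨0, 0, x.1.b22.y⟩, fb_fix rfl rfl rfl rfl rfl rfl rfl⟩), ?_⟩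
    apply Subtype.ext
    rw [del1_val]
    apply Gam.ext
    · simp [ia, ww, h1]
    · simp [ia, ww, h2]
    · simp [ia, ww, h3]
    · apply T2.ext <;> simp [ia, ww, h4]
    · apply T2.ext <;> simp [ia, ww, h0, h5]
  · rintro ⟨⟨q, p⟩, rfl⟩
    obtain ⟨q1, q2, q3, q4, q5⟩ := mem_ea q.2
    obtain ⟨p1, p2, p3, p4, p4', p5, p5'⟩ := mem_fb p.2
    change op ((ia K A * q.1 + ww K A * p.1).b22.x) = op 0
    congr 1
    simp [ia, ww]

theorem del1_exact : LinearMap.ker (del1 K A) = LinearMap.range (del2 K A) := by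
  ext x
  constructor
  · intro hx
    obtain ⟨⟨q, hq⟩, ⟨p, hp⟩⟩ := x
    have h0 : ia K A * q + ww K A * p = 0 := congrArg Subtype.val hx
    obtain ⟨q1, q2, q3, q4, q5⟩ := mem_ea hq
    obtain ⟨p1, p2, p3, p4, p4', p5, p5'⟩ := mem_fb hp
    have h1 := congrArg (fun g => g.b21.x) h0
    have h2 := congrArg (fun g => g.b21.y) h0
    have h3 := congrArg (fun g => g.b22.y) h0
    simp [ia, ww] at h1 h2 h3
    refine ⟨⟨⟨⟨0, 0, q.b11.y⟩, Du.pre (ymap K A) q.d11, Du.pre (ymap K A) q.d12, 0, 0⟩,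
      eb_fix rfl rfl (fun t => by simp) (fun t => by simp) rfl rfl⟩, ?_⟩
    apply Prod.ext
    · apply Subtype.ext
      rw [del2_fst]
      apply Gam.ext
      · apply T2.ext <;> simp [uu, h1, q1]
      · refine Du.ext fun t => ?_
        simp [uu]
        exact (q2 t).symm
      · refine Du.ext fun t => ?_
        simp [uu]
        exact (q3 t).symm
      · simp [uu, q4]
      · simp [uu, q5]
    · apply Subtype.ext
      rw [del2_snd]
      apply Gam.ext
      · simp [ib, p1]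
      · simp [ib, p2]
      · simp [ib, p3]
      · apply T2.ext <;> simp [ib, p4, p4']
        exact neg_eq_of_add_eq_zero_right h2
      · apply T2.ext <;> simp [ib, p5, p5', h3]
  · rintro ⟨⟨s, hs⟩, rfl⟩
    obtain ⟨s1, s1', s2, s3, s4, s5⟩ := mem_eb hs
    apply Subtype.ext
    rw [del1_val, del2_fst, del2_snd]
    apply Gam.ext
    · simp [ia, ww, ib, uu]
    · simp [ia, ww, ib, uu]
    · simp [ia, ww, ib, uu]
    · apply T2.ext <;> simp [ia, ww, ib, uu]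
    · apply T2.ext <;> simp [ia, ww, ib, uu]

theorem mem_ker_del2 {x : rid (eb K A)} (hx : x ∈ LinearMap.ker (del2 K A)) :
    x.1.b11 = 0 ∧ (∀ t : T2 A, x.1.d11.ev t = x.1.d11.ev ⟨0, 0, t.z⟩) ∧
      (∀ t : T2 A, x.1.d12.ev t = x.1.d12.ev ⟨0, 0, t.z⟩) ∧ x.1.b21 = 0 ∧ x.1.b22 = 0 := by
  obtain ⟨s, hs⟩ := x
  have h0 : uu K A * s = 0 := congrArg (fun p => (p.1 : Gam K (T2 A))) hx
  obtain ⟨s1, s1', s2, s3, s4, s5⟩ := mem_eb hs
  have h1 := congrArg (fun g => g.b11.y) h0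
  have h2 := congrArg Gam.d11 h0
  have h3 := congrArg Gam.d12 h0
  simp [uu] at h1 h2 h3
  refine ⟨?_, fun t => ?_, fun t => ?_, s4, s5⟩
  · apply T2.ext <;> simp [s1, s1', h1]
  · rw [s2 t]
    have h4 := congrArg (fun φ => Du.ev φ ⟨t.y, 0, 0⟩) h2
    simp at h4
    have h5 : (⟨0, t.y, t.z⟩ : T2 A) = ⟨t.y, 0, 0⟩ * ⟨0, 1, 0⟩ + ⟨0, 0, t.z⟩ := by
      apply T2.ext <;> simp
    rw [h5, Du.ev_add', h4, zero_add]
  · rw [s3 t]
    have h4 := congrArg (fun φ => Du.ev φ ⟨t.y, 0, 0⟩) h3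
    simp at h4
    have h5 : (⟨0, t.y, t.z⟩ : T2 A) = ⟨t.y, 0, 0⟩ * ⟨0, 1, 0⟩ + ⟨0, 0, t.z⟩ := by
      apply T2.ext <;> simp
    rw [h5, Du.ev_add', h4, zero_add]

/-- the element of the kernel with given functionals -/
theorem mk_ker_del2 (φ ψ : Du K A) : ∃ h : (⟨0, Du.pre (zmap K A) φ, Du.pre (zmap K A) ψ, 0, 0⟩ :
    Gam K (T2 A)) ∈ rid (eb K A), (⟨_, h⟩ : rid (eb K A)) ∈ LinearMap.ker (del2 K A) := by
  refine ⟨eb_fix rfl rfl (fun t => by simp) (fun t => by simp) rfl rfl, ?_⟩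
  apply Prod.ext
  · apply Subtype.ext
    rw [del2_fst]
    apply Gam.ext
    · simp [uu]
    · refine Du.ext fun t => ?_
      simp [uu]
    · refine Du.ext fun t => ?_
      simp [uu]
    · simp [uu]
    · simp [uu]
  · apply Subtype.ext
    rw [del2_snd]
    apply Gam.ext <;> simp [ib]

/-- The kernel of `del2`. -/
def kerEquiv (K A : Type u) [Field K] [Ring A] [Algebra K A] :
    LM K A (Du K A) ≃ₗ[(Gam K (T2 A))ᵐᵒᵖ] LinearMap.ker (del2 K A) where
  toFun m := ⟨⟨_, (mk_ker_del2 m.p m.q).1⟩, (mk_ker_del2 m.p m.q).2⟩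
  map_add' m n := by
    apply Subtype.ext
    apply Subtype.ext
    apply Gam.ext
    · simp
    · rfl
    · rfl
    · simp
    · simp
  map_smul' s m := by
    apply Subtype.ext
    apply Subtype.ext
    apply Gam.ext
    · change (0 : T2 A) = 0 * s.unop.b11
      rw [zero_mul]
    · refine Du.ext fun t => ?_
      change (op s.unop.b11.z • m.p + op s.unop.b21.z • m.q).ev t.z =
        ((0 : T2 A) • s.unop.d11 + op s.unop.b11 • Du.pre (zmap K A) m.p +
          op s.unop.b21 • Du.pre (zmap K A) m.q).ev t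
      simp
    · refine Du.ext fun t => ?_
      change (op s.unop.b22.z • m.q).ev t.z =
        ((0 : T2 A) • s.unop.d12 + op s.unop.b22 • Du.pre (zmap K A) m.q).ev t
      simp
    · change (0 : T2 A) = 0 * s.unop.b11 + 0 * s.unop.b21
      rw [zero_mul, zero_mul, zero_add]
    · change (0 : T2 A) = 0 * s.unop.b22
      rw [zero_mul]
  invFun x := ⟨Du.pre (zinc K A) x.1.1.d11, Du.pre (zinc K A) x.1.1.d12⟩
  left_inv m := rfl
  right_inv x := by
    obtain ⟨h1, h2, h3, h4, h5⟩ := mem_ker_del2 x.2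
    apply Subtype.ext
    apply Subtype.ext
    apply Gam.ext
    · exact h1.symm
    · exact Du.ext fun t => (h2 t).symm
    · exact Du.ext fun t => (h3 t).symm
    · exact h4.symm
    · exact h5.symm

theorem ea_idem' : ea K A * ea K A = ea K A := ea_idem

theorem noeth_op (K A : Type u) [Field K] [Ring A] [Algebra K A] [Module.Finite K A] :
    IsNoetherianRing Aᵐᵒᵖ :=
  isNoetherian_of_tower K (inferInstance : IsNoetherian K Aᵐᵒᵖ)

theorem dual_fin (K A : Type u) [Field K] [Ring A] [Algebra K A] [Module.Finite K A] :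
    Module.Finite Aᵐᵒᵖ (Du K A) := Module.Finite.of_restrictScalars_finite K Aᵐᵒᵖ (Du K A)

/-- **The regular module is homologically embedded.** -/
theorem ev_reg [Module.Finite K A] (Y : Type u) [AddCommGroup Y] [Module Aᵐᵒᵖ Y] (n : ℕ) :
    EV (Gam K (T2 A))ᵐᵒᵖ (Rs (rho K A) Aᵐᵒᵖ) (Rs (rho K A) Y) (n + 1) := by
  have := noeth_op K A
  have := dual_fin K A
  have hz : ∀ e : Gam K (T2 A), e.b22.x = 0 → ∀ w : Rs (rho K A) Y, op e • w = 0 := by
    intro e he w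
    change rho K A (op e) • (show Y from w) = (0 : Y)
    rw [rho_op, he, op_zero, zero_smul]
  have hk : ∀ n, EV (Gam K (T2 A))ᵐᵒᵖ (LinearMap.ker (del2 K A)) (Rs (rho K A) Y) n := fun n =>
    ev_of_equiv (kerEquiv K A) (ev_lm Y n (Du K A))
  have hb : ∀ n, EV (Gam K (T2 A))ᵐᵒᵖ (rid (eb K A)) (Rs (rho K A) Y) n := fun n =>
    ev_rid_zero eb_idem _ (hz _ (by simp [eb])) n
  have ha : ∀ n, EV (Gam K (T2 A))ᵐᵒᵖ (rid (ea K A)) (Rs (rho K A) Y) n := fun n =>
    ev_rid_zero ea_idem _ (hz _ (by simp [ea])) n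
  have hf : ∀ n, EV (Gam K (T2 A))ᵐᵒᵖ (rid (fb K A)) (Rs (rho K A) Y) n := fun n =>
    ev_rid_zero fb_idem _ (hz _ (by simp [fb])) n
  have h2 : ∀ n, EV (Gam K (T2 A))ᵐᵒᵖ (LinearMap.ker (del1 K A)) (Rs (rho K A) Y) n := by
    rw [del1_exact]
    exact ev_range _ hk hb
  have h1 : ∀ n, EV (Gam K (T2 A))ᵐᵒᵖ (LinearMap.ker (del0 K A)) (Rs (rho K A) Y) n := by
    rw [del0_exact]
    exact ev_range _ h2 (fun n => ev_prod (ha n) (hf n))
  exact ev_surj (del0 K A) del0_surjective (h1 n) (ev_rid fa_idem _ n)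

/-- **Homological embedding.** -/
theorem ev_embed [Module.Finite K A] (X Y : Type u) [AddCommGroup X] [Module Aᵐᵒᵖ X]
    [Module.Finite Aᵐᵒᵖ X] [AddCommGroup Y] [Module Aᵐᵒᵖ Y] (n : ℕ) (h : EV Aᵐᵒᵖ X Y (n + 1)) :
    EV (Gam K (T2 A))ᵐᵒᵖ (Rs (rho K A) X) (Rs (rho K A) Y) (n + 1) := by
  have := noeth_op K A
  exact ev_transfer (rho K A) rho_surjective Y (ev_reg Y) n X h

end W881.GS
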