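/-
Transfer of orthogonal families of modules.
-/
import Pool.Agent.W881.GamCx
import Pool.Agent.W450.RigDefs

namespace W881.GS

open MulOpposite CategoryTheory CategoryTheory.Limits CategoryTheory.Abelian W450.Rig

universe u

section Indec

variable {R : Type u} [Ring R]

/-- Indecomposability in terms of idempotent endomorphisms. -/
theorem idem_of_indec {M : ModuleCat.{u} R} (h : Indecomposable M) (e : M →ₗ[R] M)
    (he : e ∘ₗ e = e) : e = 0 ∨ e = LinearMap.id := by
  have hc : IsCompl (LinearMap.range e) (LinearMap.ker e) :=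
    LinearMap.IsIdempotentElem.isCompl (f := e) he
  let eq1 := Submodule.prodEquivOfIsCompl _ _ hc
  have hM := h.2 (ModuleCat.of R (LinearMap.range e)) (ModuleCat.of R (LinearMap.ker e))
    (eq1.symm.toModuleIso ≪≫ (ModuleCat.biprodIsoProd (ModuleCat.of R (LinearMap.range e))
      (ModuleCat.of R (LinearMap.ker e))).symm)
  rcases hM with h1 | h1
  · left
    have h2 : Subsingleton (LinearMap.range e) := ModuleCat.isZero_iff_subsingleton.1 h1
    refine LinearMap.ext fun x => ?_
    have := congrArg Subtype.val (Subsingleton.elim (⟨e x, LinearMap.mem_range_self e x⟩ :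
      LinearMap.range e) 0)
    exact this
  · right
    have h2 : Subsingleton (LinearMap.ker e) := ModuleCat.isZero_iff_subsingleton.1 h1
    refine LinearMap.ext fun x => ?_
    have hx : e (e x - x) = 0 := by
      rw [map_sub, ← LinearMap.comp_apply, he, sub_self]
    have := congrArg Subtype.val (Subsingleton.elim (⟨e x - x, hx⟩ : LinearMap.ker e) 0)
    exact sub_eq_zero.1 this

theorem indec_of_idem {M : Type u} [AddCommGroup M] [Module R M] (hn : Nontrivial M)
    (h : ∀ e : M →ₗ[R] M, e ∘ₗ e = e → e = 0 ∨ e = LinearMap.id) :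
    Indecomposable (ModuleCat.of R M) := by
  constructor
  · intro h
    have h0 : Subsingleton M := ModuleCat.isZero_iff_subsingleton.1 h
    exact not_subsingleton M h0
  · intro Y Z e
    let p : ModuleCat.of R M ⟶ ModuleCat.of R M :=
      e.hom ≫ biprod.fst ≫ biprod.inl ≫ e.inv
    have hp : p ≫ p = p := by simp [p]
    rcases h p.hom (congrArg ModuleCat.Hom.hom hp) with h1 | h1
    · left
      have hp0 : p = 0 := ModuleCat.hom_ext h1
      rw [IsZero.iff_id_eq_zero]
      have : (𝟙 Y : Y ⟶ Y) = biprod.inl ≫ e.inv ≫ p ≫ e.hom ≫ biprod.fst := by simp [p]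
      rw [this, hp0]
      simp
    · right
      have hp1 : p = 𝟙 _ := ModuleCat.hom_ext h1
      rw [IsZero.iff_id_eq_zero]
      have h2 : (𝟙 Z : Z ⟶ Z) = biprod.inr ≫ e.inv ≫ 𝟙 _ ≫ e.hom ≫ biprod.snd := by simp
      have h3 : (0 : Z ⟶ Z) = biprod.inr ≫ e.inv ≫ p ≫ e.hom ≫ biprod.snd := by simp [p]
      rw [h2, h3, hp1]

end Indec

section Transfer

variable {S A : Type u} [Ring S] [Ring A] (ρ : S →+* A)

theorem rs_finite (hρ : Function.Surjective ρ) (X : Type u) [AddCommGroup X] [Module A X]
    [hX : Module.Finite A X] : Module.Finite S (Rs ρ X) := by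
  obtain ⟨s, hs⟩ := hX.fg_top
  refine ⟨⟨s, ?_⟩⟩
  rw [eq_top_iff]
  have key : ∀ x : X, x ∈ Submodule.span A (s : Set X) →
      (show Rs ρ X from x) ∈ Submodule.span S (show Set (Rs ρ X) from (s : Set X)) := by
    intro x hx
    induction hx using Submodule.span_induction with
    | mem y hy => exact Submodule.subset_span hy
    | zero => exact Submodule.zero_mem _
    | add y z _ _ hy hz => exact Submodule.add_mem _ hy hz
    | smul a y _ hy =>
      obtain ⟨g, rfl⟩ := hρ a
      exact Submodule.smul_mem _ g hy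
  rintro x -
  exact key x (by rw [hs]; exact Submodule.mem_top)

theorem rs_indec (hρ : Function.Surjective ρ) {X : ModuleCat.{u} A} (h : Indecomposable X) :
    Indecomposable (ModuleCat.of S (Rs ρ X)) := by
  refine indec_of_idem ?_ fun e he => ?_
  · by_contra hn
    rw [not_nontrivial_iff_subsingleton] at hn
    exact h.1 (ModuleCat.isZero_iff_subsingleton.2 hn)
  · rcases idem_of_indec h (Rs.unmap hρ e) (LinearMap.ext fun x => LinearMap.congr_fun he x)
      with h1 | h1
    · left
      exact LinearMap.ext fun x => LinearMap.congr_fun h1 x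
    · right
      exact LinearMap.ext fun x => LinearMap.congr_fun h1 x

theorem rs_inj (hρ : Function.Surjective ρ) {X Y : ModuleCat.{u} A}
    (h : Nonempty (ModuleCat.of S (Rs ρ X) ≅ ModuleCat.of S (Rs ρ Y))) : Nonempty (X ≅ Y) := by
  obtain ⟨e⟩ := h
  refine ⟨⟨ModuleCat.ofHom (Rs.unmap hρ e.hom.hom), ModuleCat.ofHom (Rs.unmap hρ e.inv.hom),
    ?_, ?_⟩⟩
  · apply ModuleCat.hom_ext
    refine LinearMap.ext fun x => ?_
    exact LinearMap.congr_fun (congrArg ModuleCat.Hom.hom e.hom_inv_id) x
  · apply ModuleCat.hom_ext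
    refine LinearMap.ext fun x => ?_
    exact LinearMap.congr_fun (congrArg ModuleCat.Hom.hom e.inv_hom_id) x

end Transfer

/-- **Embedding theorem.** -/
theorem orth_embed {K A : Type u} [Field K] [Ring A] [Algebra K A] [Module.Finite K A]
    {X : ℕ → ModuleCat.{u} Aᵐᵒᵖ} (hX : IsOrthFamily X) :
    IsOrthFamily (fun n => ModuleCat.of (Gam K (T2 A))ᵐᵒᵖ (Rs (rho K A) (X n))) where
  fin n := by
    have := hX.fin n
    exact rs_finite (rho K A) rho_surjective (X n)
  indec n := rs_indec (rho K A) rho_surjective (hX.indec n)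
  inj m n h := hX.inj m n (rs_inj (rho K A) rho_surjective h)
  ext m n i hi := by
    have := hX.fin m
    obtain ⟨j, rfl⟩ : ∃ j, i = j + 1 := ⟨i - 1, by omega⟩
    exact ev_embed (X m) (X n) j (hX.ext m n (j + 1) hi)

end W881.GS
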