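import Pool.Agent.W982.TA.Stm

set_option autoImplicit false

namespace Pool.Agent.W982.TA

namespace G11

theorem id1 (a b c q : Pt) : dt b c q * a.1 + dt c a q * b.1 + dt a b q * c.1 =
    dt a b c * q.1 := by
  unfold dt; ring

theorem id2 (a b c q : Pt) : dt b c q * a.2 + dt c a q * b.2 + dt a b q * c.2 =
    dt a b c * q.2 := by
  unfold dt; ring

theorem id3 (a b c q : Pt) : dt b c q + dt c a q + dt a b q = dt a b c := by
  unfold dt; ring

theorem side (a b c q : Pt) (h1 : dt b c q = 1) (h2 : dt c a q = 1) (h3 : dt a b q = 0) :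
    ∃ v : Pt, Int.gcd v.1 v.2 = 1 ∧ s(q - v, q + v) = s(a, b) := by
  have e1 := id1 a b c q
  have e2 := id2 a b c q
  have e3 := id3 a b c q
  rw [h1, h2, h3] at e1 e2 e3
  rw [← e3] at e1 e2
  refine ⟨b - q, ?_, ?_⟩
  · rw [← Int.isCoprime_iff_gcd_eq_one]
    refine ⟨c.2 - b.2, -(c.1 - b.1), ?_⟩
    unfold dt at h1
    simp only [Prod.fst_sub, Prod.snd_sub]
    linear_combination h1
  · have f1 : q - (b - q) = a := by
      ext
      · simp only [Prod.fst_sub]; linarith
      · simp only [Prod.snd_sub]; linarith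
    have f2 : q + (b - q) = b := by abel
    rw [f1, f2]

theorem vert (a b c q : Pt) (h : 0 < dt a b c) (h1 : dt b c q = 0) (h3 : dt a b q = 0) :
    q = b := by
  have e1 := id1 a b c q
  have e2 := id2 a b c q
  have e3 := id3 a b c q
  rw [h1, h3] at e1 e2 e3
  have e4 : dt c a q = dt a b c := by linarith
  rw [e4] at e1 e2
  have hne : dt a b c ≠ 0 := h.ne'
  ext
  · apply mul_left_cancel₀ hne
    linarith
  · apply mul_left_cancel₀ hne
    linarith

end G11

theorem g11 : TaskG11 := by
  intro a b c q hpos hle hin ha hb hc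
  obtain ⟨hw, hx, hy⟩ := hin
  have e3 := G11.id3 a b c q
  have hrot1 : dt b c a = dt a b c := by unfold dt; ring
  have hrot2 : dt c a b = dt a b c := by unfold dt; ring
  rcases hw.eq_or_lt with w0 | w0
  · -- on the line ab
    rcases hx.eq_or_lt with x0 | x0
    · exact absurd (G11.vert a b c q hpos x0.symm w0.symm) hb
    rcases hy.eq_or_lt with y0 | y0
    · exact absurd (G11.vert c a b q (hrot2 ▸ hpos) w0.symm y0.symm) ha
    left
    exact G11.side a b c q (by omega) (by omega) w0.symm
  · rcases hx.eq_or_lt with x0 | x0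
    · rcases hy.eq_or_lt with y0 | y0
      · exact absurd (G11.vert b c a q (hrot1 ▸ hpos) y0.symm x0.symm) hc
      right; left
      exact G11.side b c a q (by omega) (by omega) x0.symm
    · rcases hy.eq_or_lt with y0 | y0
      · right; right
        have := G11.side c a b q (by omega) (by omega) y0.symm
        rwa [Sym2.eq_swap (a := c) (b := a)] at this
      · omega

end Pool.Agent.W982.TA
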